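import Pool.Agent.Lib.MP_f80667_ag.Rsm.Ka

/-!
The closure of a projective variety over the integers: definitions.

* `Clo V f`: the forms over the valuation ring of `F` under `V` which are in the ideal of the `f_i`: the equations of the closure of the
  variety `f = 0`. `spc V f`: their reductions, the equations of the special fibre.
* `Gng V f d`: the special fibre of the closure is generically reduced.
* `Sms V f d P`: the reduction of the point `P` is smooth.
* `Sss V M K d`: the structure of the cycles which are supported at points with smooth reduction.
-/

open ZC BE PE CV IntermediateField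

namespace GX

section val

variable {F Ω : Type} [Field F] [Field Ω] [Algebra F Ω] (V : ValuationSubring Ω) {N : ℕ}
  {ι : Type} (f : ι → MvPolynomial (Fin N) F)

/-- The equations of the closure of the variety `f = 0` over the valuation ring of `F` under `V`: the homogeneous polynomials with
coefficients in the valuation ring which are in the ideal of the `f_i`. -/
def Clo : Type :=
  {g : MvPolynomial (Fin N) (Ovf V F) // (∃ m, g.IsHomogeneous m) ∧
    MvPolynomial.map (Ovf V F).subtype g ∈ Ideal.span (Set.range f)}

/-- The equations of the special fibre of the closure. -/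
noncomputable def spc : Clo V f → MvPolynomial (Fin N) (IsLocalRing.ResidueField V) :=
  fun g => MvPolynomial.map (rsF V F) g.1

/-- The special fibre of the closure is generically reduced: every component (a minimal prime ideal `P`) contains a point at which the
tangent space of the cone has dimension at most `d + 1`. -/
def Gng (d : ℕ) : Prop :=
  ∀ P ∈ (Ideal.span (Set.range (spc V f))).minimalPrimes,
    ∃ x, Zp (spc V f) x ∧ (∀ g ∈ P, MvPolynomial.eval x g = 0) ∧
      Module.finrank (IsLocalRing.ResidueField V) (tgs (spc V f) x) ≤ d + 1

/-- The reduction of the point `P` is smooth: the tangent space of the cone over the special fibre of the closure at the reduction of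
`P` has dimension at most `d + 1`. -/
def Sms (d : ℕ) (P : (Xf f).pt Ω) : Prop :=
  ∃ x : Fin N → V, Co P (fun j => (x j : Ω)) ∧ (∃ j, IsUnit (x j)) ∧
    Module.finrank (IsLocalRing.ResidueField V)
      (tgs (spc V f) fun j => IsLocalRing.residue V (x j)) ≤ d + 1

end val

/-- The cycles of degree `0` with sum `0` which are supported at points with smooth reduction, for all multiples `a` of some `a₀`. -/
def Sss {F : Type} [Field F] {N N' k k' : ℕ} {ι ι' : Type} {f : ι → MvPolynomial (Fin N) F}
    {A : Gv F N' k' ι'} {Ω : Type} [Field Ω] [Algebra F Ω] (V : ValuationSubring Ω)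
    (M : Mf f A k) (K : Type) [Field K] [Algebra F K] [Algebra K Ω] [IsScalarTower F K Ω]
    (d : ℕ) : Prop :=
  ∃ a₀ : Ω, a₀ ≠ 0 ∧ ∀ a : Ω, a ≠ 0 → (∃ c ∈ V, a = a₀ * c) →
    Dvw V M K a ∧ (∀ p : ℕ, p.Prime → (p : Ω) ∈ V.nonunits → TgZ V K (Sms V f d) M a p) ∧
      ∀ D : ℕ, TgD V K (Sms V f d) M a D

end GX
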