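import Pool.Agent.Lib.MP_f80667_ag.Ve.Q
import Pool.Agent.Lib.MP_f80667_ag.To.Ez

/-!
The structure of the cycles over `K`, with the finer statement for places where the closure has a generically reduced special fibre.
-/

open ZC BE PE CV IntermediateField IsDedekindDomain NumberField

namespace GX

section defs

variable {F : Type} [Field F] {N N' k k' : ℕ} {ι ι' : Type} {f : ι → MvPolynomial (Fin N) F}
  {A : Gv F N' k' ι'} {Ω : Type} [Field Ω] [Algebra F Ω] (V : ValuationSubring Ω) (M : Mf f A k)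
  (K : Type) [Field K] [Algebra F K] [Algebra K Ω] [IsScalarTower F K Ω] (d : ℕ)

/-- The structure of the cycles over `K` for all multiples `a` of some `a₀`. -/
def Stz : Prop :=
  ∃ a₀ : Ω, a₀ ≠ 0 ∧ ∀ a : Ω, a ≠ 0 → (∃ c ∈ V, a = a₀ * c) →
    Fnz f V K a ∧ Dvw V M K a ∧ Tdw V M K a ∧ (∀ D : ℕ, Tbw V M K a D) ∧
      (Gng V f d → (∀ p : ℕ, p.Prime → (p : Ω) ∈ V.nonunits → TgZ V K (Sms V f d) M a p) ∧
        ∀ D : ℕ, TgD V K (Sms V f d) M a D)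

end defs

/-- **Every finite place.** -/
theorem stz_glob {F : Type} [Field F] [NumberField F] {N N' k k' d : ℕ} {ι ι' : Type}
    {f : ι → MvPolynomial (Fin N) F} {A : Gv F N' k' ι'} {M : Mf f A k} (hf : Nsg f d)
    (hi : (Ideal.span (Set.range fun i =>
      MvPolynomial.map (algebraMap F (AlgebraicClosure F)) (f i))).radical.IsPrime)
    (hA : A.Ok) (hM : M.Ok) (hb : M.Alb (AlgebraicClosure F)) (v : HeightOneSpectrum (𝓞 F))
    (V : ValuationSubring (AlgebraicClosure (FK F v)))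
    (hV : V.comap (algebraMap (FK F v) _) = CV.Iv v) : Stz V M (FK F v) d := by
  obtain ⟨a₀, h0, h⟩ := tor_stw hf hi hA hM hb v V hV
  by_cases hr : Gng V f d
  · obtain ⟨a₁, h1, h'⟩ := sss_glob hf hi hA hM hb v hV hr
    obtain ⟨e, he, ea, ea₁⟩ : ∃ e : AlgebraicClosure (FK F v), e ≠ 0 ∧
        (∀ c ∈ V, ∃ c' ∈ V, e * c = a₀ * c') ∧ ∀ c ∈ V, ∃ c' ∈ V, e * c = a₁ * c' := by
      rcases V.mem_or_inv_mem (a₁ / a₀) with h2 | h2
      · refine ⟨a₁, h1, fun c hc => ⟨a₁ / a₀ * c, mul_mem h2 hc, ?_⟩, fun c hc => ⟨c, hc, rfl⟩⟩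
        field_simp
      · refine ⟨a₀, h0, fun c hc => ⟨c, hc, rfl⟩, fun c hc => ⟨(a₁ / a₀)⁻¹ * c,
          mul_mem h2 hc, ?_⟩⟩
        field_simp
    refine ⟨e, he, fun a ha ⟨c, hc, hac⟩ => ?_⟩
    obtain ⟨c', hc', e1⟩ := ea c hc
    obtain ⟨c'', hc'', e2⟩ := ea₁ c hc
    obtain ⟨g1, g2, g3, g4⟩ := h a ha ⟨c', hc', hac.trans e1⟩
    obtain ⟨-, g5, g6⟩ := h' a ha ⟨c'', hc'', hac.trans e2⟩
    exact ⟨g1, g2, g3, g4, fun _ => ⟨g5, g6⟩⟩
  · refine ⟨a₀, h0, fun a ha hc => ?_⟩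
    obtain ⟨g1, g2, g3, g4⟩ := h a ha hc
    exact ⟨g1, g2, g3, g4, fun h' => absurd h' hr⟩

end GX
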