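import Pool.Agent.Lib.MP_f80667_ag.Gx.PjA

/-!
The 2-uple embedding: definitions.

* `pr q`, `nb i j`: the pair of numbers of a coordinate, the number of a pair.
* `ver N R`: the homomorphism `Z_ij ↦ X_i X_j`. `vx x`: the vector `(x_i x_j)`, `dvx x t`: its derivative, `row l z`: the row number `l`.
* `VI f`: the homogeneous polynomials `g` with `g (X_i X_j)` in the ideal of the `f_i`; `vf f`: the family of these polynomials.
* `Vs f f'`: the `f'_i` are homogeneous and generate the ideal of the image of the variety `f = 0`.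
-/

open MvPolynomial

namespace GX.Ve

variable {N : ℕ}

/-- The pair of numbers of a coordinate. -/
def pr (q : Fin (N * N)) : Fin N × Fin N := finProdFinEquiv.symm q

/-- The number of a pair. -/
def nb (i j : Fin N) : Fin (N * N) := finProdFinEquiv (i, j)

theorem pr_nb (i j : Fin N) : pr (nb i j) = (i, j) := finProdFinEquiv.symm_apply_apply (i, j)

theorem nb_pr (q : Fin (N * N)) : nb (pr q).1 (pr q).2 = q := finProdFinEquiv.apply_symm_apply q

theorem nb_inj (l : Fin N) : Function.Injective (nb l) := fun i j h => by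
  have h1 := congrArg pr h
  rw [pr_nb, pr_nb] at h1
  exact congrArg Prod.snd h1

/-- The vector `(x_i x_j)`. -/
def vx {S : Type} [CommRing S] (x : Fin N → S) : Fin (N * N) → S := fun q => x (pr q).1 * x (pr q).2

/-- The derivative of `vx`. -/
def dvx {S : Type} [CommRing S] (x t : Fin N → S) : Fin (N * N) → S :=
  fun q => x (pr q).1 * t (pr q).2 + x (pr q).2 * t (pr q).1

/-- The row number `l`. -/
def row {S : Type} (l : Fin N) (z : Fin (N * N) → S) : Fin N → S := fun j => z (nb l j)

section ring

variable {R : Type} [CommRing R]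

/-- The homomorphism `Z_ij ↦ X_i X_j`. -/
noncomputable def ver (N : ℕ) (R : Type) [CommRing R] :
    MvPolynomial (Fin (N * N)) R →ₐ[R] MvPolynomial (Fin N) R :=
  aeval fun q => X (pr q).1 * X (pr q).2

/-- The homogeneous polynomials `g` with `g (X_i X_j)` in the ideal of the `f_i`. -/
def VI {ι : Type} (f : ι → MvPolynomial (Fin N) R) : Type :=
  {g : MvPolynomial (Fin (N * N)) R // (∃ m, g.IsHomogeneous m) ∧
    ver N R g ∈ Ideal.span (Set.range f)}

/-- The family of these polynomials. -/
def vf {ι : Type} (f : ι → MvPolynomial (Fin N) R) : VI f → MvPolynomial (Fin (N * N)) R :=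
  Subtype.val

/-- The `f'_i` are homogeneous and generate the ideal of the image of the variety `f = 0`. -/
structure Vs {ι ι' : Type} (f : ι → MvPolynomial (Fin N) R)
    (f' : ι' → MvPolynomial (Fin (N * N)) R) : Prop where
  hom : ∀ i, ∃ e, (f i).IsHomogeneous e
  hom' : ∀ i, ∃ e, (f' i).IsHomogeneous e
  span : ∀ g, g ∈ Ideal.span (Set.range f') ↔ ver N R g ∈ Ideal.span (Set.range f)

theorem aeval_ver {S : Type} [CommRing S] [Algebra R S] (x : Fin N → S)
    (g : MvPolynomial (Fin (N * N)) R) : aeval x (ver N R g) = aeval (vx x) g := by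
  rw [ver, ← AlgHom.comp_apply]
  congr 1
  ext q
  simp [vx]

theorem eval_ver (x : Fin N → R) (g : MvPolynomial (Fin (N * N)) R) :
    eval x (ver N R g) = eval (vx x) g := by
  have h := aeval_ver (S := R) x g
  rwa [aeval_def, aeval_def, Algebra.algebraMap_self, eval₂_id, eval₂_id] at h

theorem map_ver {R' : Type} [CommRing R'] (φ : R →+* R') (g : MvPolynomial (Fin (N * N)) R) :
    map φ (ver N R g) = ver N R' (map φ g) := by
  have h : (map φ).comp (ver N R).toRingHom = (ver N R').toRingHom.comp (map φ) := by
    refine ringHom_ext (fun r => ?_) fun q => ?_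
    · simp [ver]
    · simp [ver]
  exact RingHom.congr_fun h g

theorem ver_hom {g : MvPolynomial (Fin (N * N)) R} {m : ℕ} (h : g.IsHomogeneous m) :
    (ver N R g).IsHomogeneous (2 * m) := by
  refine h.aeval (n := 2) _ fun q => ?_
  exact (isHomogeneous_X R _).mul (isHomogeneous_X R _)

/-- The polynomial `p` in the row number `l`. -/
theorem ver_row (l : Fin N) {p : MvPolynomial (Fin N) R} {e : ℕ} (h : p.IsHomogeneous e) :
    ver N R (rename (nb l) p) = X l ^ e * p := by
  rw [ver, aeval_rename]
  have e1 : ((fun q : Fin (N * N) => (X (pr q).1 * X (pr q).2 : MvPolynomial (Fin N) R)) ∘ nb l) =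
      fun j => X l * X j := by
    funext j
    simp [pr_nb]
  rw [e1]
  have key : ∀ a : Fin N →₀ ℕ, ∀ r : R, a.degree = e →
      aeval (fun j => (X l * X j : MvPolynomial (Fin N) R)) (monomial a r) =
        X l ^ e * monomial a r := by
    intro a r ha
    rw [aeval_monomial, Finsupp.prod_congr (g2 := fun j n => X l ^ n * (X j : MvPolynomial (Fin N) R) ^ n)
      fun j _ => mul_pow _ _ _, Finsupp.prod_mul, algebraMap_eq, monomial_eq (s := a)]
    have e2 : (a.prod fun _ n => (X l : MvPolynomial (Fin N) R) ^ n) = X l ^ e := by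
      rw [← ha, Finsupp.degree_apply, Finsupp.prod, Finset.prod_pow_eq_pow_sum]
    rw [e2]
    ring
  conv_lhs => rw [p.as_sum]
  conv_rhs => rw [p.as_sum]
  rw [map_sum, Finset.mul_sum]
  refine Finset.sum_congr rfl fun a ha => key a _ ?_
  have h1 := h (mem_support_iff.1 ha)
  rw [Finsupp.degree_eq_weight_one]
  exact h1

end ring

end GX.Ve
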