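import Pool.Agent.Lib.MP_f80667_ag.Ve.A

/-!
The ideal of the 2-uple embedding and base change.

* `bq a`: the exponent of the image of the monomial `Z ^ a`. `sc b`: an `a` with `bq a = b`. `Tr N R`: the linear map `X ^ b ↦ Z ^ (sc b)`
  (`0` if there is no such `a`).
* `mem_vf`: the ideal of the image, after a homomorphism of the coefficients.
-/

open MvPolynomial

namespace GX.Ve

variable {N : ℕ} {ι : Type}

/-- The exponent of the image of the monomial `Z ^ a`. -/
noncomputable def bq (a : Fin (N * N) →₀ ℕ) : Fin N →₀ ℕ :=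
  a.sum fun q n => n • (Finsupp.single (pr q).1 1 + Finsupp.single (pr q).2 1)

theorem bq_add (a a' : Fin (N * N) →₀ ℕ) : bq (a + a') = bq a + bq a' := by
  unfold bq
  exact Finsupp.sum_add_index' (fun _ => zero_smul _ _) fun _ _ _ => add_smul _ _ _

theorem bq_single (q : Fin (N * N)) (n : ℕ) :
    bq (Finsupp.single q n) = n • (Finsupp.single (pr q).1 1 + Finsupp.single (pr q).2 1) := by
  unfold bq
  exact Finsupp.sum_single_index (zero_smul _ _)

theorem bq_zero : bq (0 : Fin (N * N) →₀ ℕ) = 0 := by
  unfold bq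
  exact Finsupp.sum_zero_index

/-- Proof: `MvPolynomial.aeval_monomial`. -/
theorem ver_monomial {R : Type} [CommRing R] (a : Fin (N * N) →₀ ℕ) (r : R) :
    ver N R (monomial a r) = monomial (bq a) r := by
  rw [ver, aeval_monomial, bq, algebraMap_eq, monomial_finsupp_sum_index]
  congr 1
  refine Finsupp.prod_congr fun q _ => ?_
  rw [X, X, monomial_mul, one_mul, monomial_pow, one_pow]

theorem degree_bq (a : Fin (N * N) →₀ ℕ) : (bq a).degree = 2 * a.degree := by
  induction a using Finsupp.induction_linear with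
  | zero => rw [bq_zero, map_zero, map_zero, mul_zero]
  | add f g hf hg => rw [bq_add, map_add, map_add, hf, hg, mul_add]
  | single q n =>
    rw [bq_single, map_nsmul, map_add, Finsupp.degree_single, Finsupp.degree_single,
      Finsupp.degree_single, smul_eq_mul, mul_comm]

theorem exists_sub {b : Fin N →₀ ℕ} {n : ℕ} (h : b.degree = n + 1) :
    ∃ i b', b = b' + Finsupp.single i 1 ∧ b'.degree = n := by
  have hb : b ≠ 0 := by
    rintro rfl
    rw [map_zero] at h
    omega
  obtain ⟨i, hi⟩ := Finsupp.ne_iff.1 hb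
  have hi' : Finsupp.single i 1 ≤ b := by
    rw [Finsupp.single_le_iff]
    exact Nat.one_le_iff_ne_zero.2 hi
  refine ⟨i, b - Finsupp.single i 1, (tsub_add_cancel_of_le hi').symm, ?_⟩
  have h1 := congrArg Finsupp.degree (tsub_add_cancel_of_le hi')
  rw [map_add, Finsupp.degree_single, h] at h1
  omega

/-- Proof: induction on `m`. -/
theorem exists_bq (m : ℕ) (b : Fin N →₀ ℕ) (h : b.degree = 2 * m) : ∃ a, bq a = b := by
  induction m generalizing b with
  | zero =>
    refine ⟨0, ?_⟩
    rw [bq_zero]
    exact (Finsupp.degree_eq_zero_iff b).1 h |>.symm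
  | succ m ih =>
    obtain ⟨i, b', rfl, h1⟩ := exists_sub (n := 2 * m + 1) h
    obtain ⟨j, b'', rfl, h2⟩ := exists_sub h1
    obtain ⟨a, rfl⟩ := ih b'' h2
    refine ⟨a + Finsupp.single (nb i j) 1, ?_⟩
    rw [bq_add, bq_single, pr_nb, one_smul]
    change bq a + (Finsupp.single i 1 + Finsupp.single j 1) = _
    abel

open Classical in
/-- An exponent with the image `b`. -/
noncomputable def sc (b : Fin N →₀ ℕ) : Fin (N * N) →₀ ℕ :=
  if h : ∃ a, bq a = b then h.choose else 0

theorem bq_sc {b : Fin N →₀ ℕ} (h : ∃ a, bq a = b) : bq (sc b) = b := by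
  rw [sc, dif_pos h]
  exact h.choose_spec

open Classical in
/-- The linear map `X ^ b ↦ Z ^ (sc b)`. -/
noncomputable def Tr (N : ℕ) (R : Type) [CommRing R] :
    MvPolynomial (Fin N) R →ₗ[R] MvPolynomial (Fin (N * N)) R :=
  (basisMonomials (Fin N) R).constr R fun b =>
    if (∃ a, bq a = b) then monomial (sc b) 1 else 0

section

variable {R : Type} [CommRing R]

theorem Tr_monomial {b : Fin N →₀ ℕ} (h : ∃ a, bq a = b) (r : R) :
    Tr N R (monomial b r) = monomial (sc b) r := by
  have e : (monomial b r : MvPolynomial (Fin N) R) = r • basisMonomials (Fin N) R b := by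
    rw [coe_basisMonomials, smul_monomial, smul_eq_mul, mul_one]
  rw [e, map_smul, Tr, Module.Basis.constr_basis, if_pos h, smul_monomial, smul_eq_mul, mul_one]

theorem Tr_monomial' {b : Fin N →₀ ℕ} (h : ¬ ∃ a, bq a = b) (r : R) :
    Tr N R (monomial b r) = 0 := by
  have e : (monomial b r : MvPolynomial (Fin N) R) = r • basisMonomials (Fin N) R b := by
    rw [coe_basisMonomials, smul_monomial, smul_eq_mul, mul_one]
  rw [e, map_smul, Tr, Module.Basis.constr_basis, if_neg h, smul_zero]

theorem Tr_odd {p : MvPolynomial (Fin N) R} {m : ℕ} (h : p.IsHomogeneous (2 * m + 1)) :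
    Tr N R p = 0 := by
  rw [p.as_sum, map_sum]
  refine Finset.sum_eq_zero fun b hb => Tr_monomial' ?_ _
  rintro ⟨a, rfl⟩
  have h1 : (bq a).degree = 2 * m + 1 := by
    rw [Finsupp.degree_eq_weight_one]
    exact h (mem_support_iff.1 hb)
  rw [degree_bq] at h1
  omega

theorem Tr_hom {p : MvPolynomial (Fin N) R} {m : ℕ} (h : p.IsHomogeneous (2 * m)) :
    (Tr N R p).IsHomogeneous m := by
  rw [p.as_sum, map_sum]
  refine IsHomogeneous.sum _ _ _ fun b hb => ?_
  have h1 : b.degree = 2 * m := by
    rw [Finsupp.degree_eq_weight_one]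
    exact h (mem_support_iff.1 hb)
  have h2 := exists_bq m b h1
  rw [Tr_monomial h2]
  refine isHomogeneous_monomial _ ?_
  have h3 := degree_bq (sc b)
  rw [bq_sc h2, h1] at h3
  omega

theorem ver_Tr {p : MvPolynomial (Fin N) R} {m : ℕ} (h : p.IsHomogeneous (2 * m)) :
    ver N R (Tr N R p) = p := by
  conv_lhs => rw [p.as_sum]
  conv_rhs => rw [p.as_sum]
  rw [map_sum, map_sum]
  refine Finset.sum_congr rfl fun b hb => ?_
  have h1 : b.degree = 2 * m := by
    rw [Finsupp.degree_eq_weight_one]
    exact h (mem_support_iff.1 hb)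
  have h2 := exists_bq m b h1
  rw [Tr_monomial h2, ver_monomial, bq_sc h2]

theorem map_Tr {R' : Type} [CommRing R'] (φ : R →+* R') (p : MvPolynomial (Fin N) R) :
    map φ (Tr N R p) = Tr N R' (map φ p) := by
  induction p using MvPolynomial.induction_on' with
  | monomial b r =>
    rw [map_monomial]
    by_cases h : ∃ a, bq a = b
    · rw [Tr_monomial h, Tr_monomial h, map_monomial]
    · rw [Tr_monomial' h, Tr_monomial' h, map_zero]
  | add p q hp hq => rw [map_add, map_add, map_add, map_add, hp, hq]

end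

section gl

variable {R R' : Type} [CommRing R] [CommRing R'] (φ : R →+* R')
  {f : ι → MvPolynomial (Fin N) R}

theorem vf_mem {g : MvPolynomial (Fin (N * N)) R} (h : ∃ m, g.IsHomogeneous m)
    (h' : ver N R g ∈ Ideal.span (Set.range f)) :
    map φ g ∈ Ideal.span (Set.range fun q : VI f => map φ (vf f q)) :=
  Ideal.subset_span ⟨⟨g, h, h'⟩, rfl⟩

theorem sub_Tr (g : MvPolynomial (Fin (N * N)) R') :
    g - Tr N R' (ver N R' g) ∈ Ideal.span (Set.range fun q : VI f => map φ (vf f q)) := by
  induction g using MvPolynomial.induction_on' with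
  | monomial a r =>
    have h0 : ∃ a', bq a' = bq a := ⟨a, rfl⟩
    rw [ver_monomial, Tr_monomial h0]
    have h1 : (monomial a r - monomial (sc (bq a)) r : MvPolynomial (Fin (N * N)) R') =
        C r * map φ (monomial a 1 - monomial (sc (bq a)) 1) := by
      rw [map_sub, map_monomial, map_monomial, map_one, mul_sub, C_mul_monomial, C_mul_monomial,
        mul_one]
    rw [h1]
    refine Ideal.mul_mem_left _ _ (vf_mem φ ⟨a.degree, ?_⟩ ?_)
    · refine (isHomogeneous_monomial _ rfl).sub (isHomogeneous_monomial _ ?_)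
      have h2 := degree_bq (sc (bq a))
      rw [bq_sc h0, degree_bq] at h2
      omega
    · rw [map_sub, ver_monomial, ver_monomial, bq_sc h0, sub_self]
      exact zero_mem _
  | add p q hp hq =>
    have h1 : p + q - Tr N R' (ver N R' (p + q)) =
        (p - Tr N R' (ver N R' p)) + (q - Tr N R' (ver N R' q)) := by
      rw [map_add, map_add]
      ring
    rw [h1]
    exact add_mem hp hq

theorem Tr_mem (hf : ∀ i, ∃ e, (f i).IsHomogeneous e) {h : MvPolynomial (Fin N) R'}
    (hh : h ∈ Ideal.span (Set.range fun i => map φ (f i))) :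
    Tr N R' h ∈ Ideal.span (Set.range fun q : VI f => map φ (vf f q)) := by
  rw [Finsupp.mem_ideal_span_range_iff_exists_finsupp] at hh
  obtain ⟨c, rfl⟩ := hh
  rw [Finsupp.sum, map_sum]
  refine sum_mem fun i _ => ?_
  induction c i using MvPolynomial.induction_on' with
  | monomial a r =>
    have h1 : monomial a r * map φ (f i) = r • map φ (monomial a 1 * f i) := by
      rw [map_mul, map_monomial, map_one, ← smul_mul_assoc, smul_monomial, smul_eq_mul, mul_one]
    rw [h1, map_smul, ← map_Tr, smul_eq_C_mul]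
    refine Ideal.mul_mem_left _ _ ?_
    obtain ⟨e, he⟩ := hf i
    have h2 : (monomial a 1 * f i).IsHomogeneous (a.degree + e) :=
      (isHomogeneous_monomial _ rfl).mul he
    obtain ⟨m, hm | hm⟩ := Nat.even_or_odd' (a.degree + e)
    · rw [hm] at h2
      refine vf_mem φ ⟨m, Tr_hom h2⟩ ?_
      rw [ver_Tr h2]
      exact Ideal.mul_mem_left _ _ (Ideal.subset_span ⟨i, rfl⟩)
    · rw [hm] at h2
      rw [Tr_odd h2, map_zero]
      exact zero_mem _
  | add p q hp hq =>
    rw [add_mul, map_add]
    exact add_mem hp hq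

/-- **The ideal of the image.** Proof: `g - Tr (ver g)` is a combination of differences of monomials with the same image (`sub_Tr`), and `Tr` maps the
ideal of the `f_i` to the ideal of the `g` (`Tr_mem`). -/
theorem mem_vf (hf : ∀ i, ∃ e, (f i).IsHomogeneous e) (g : MvPolynomial (Fin (N * N)) R') :
    g ∈ Ideal.span (Set.range fun q : VI f => map φ (vf f q)) ↔
      ver N R' g ∈ Ideal.span (Set.range fun i => map φ (f i)) := by
  constructor
  · intro h
    have h1 : Ideal.span (Set.range fun q : VI f => map φ (vf f q)) ≤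
        (Ideal.span (Set.range fun i => map φ (f i))).comap (ver N R') := by
      rw [Ideal.span_le]
      rintro _ ⟨q, rfl⟩
      change ver N R' (map φ (vf f q)) ∈ Ideal.span (Set.range fun i => map φ (f i))
      rw [← map_ver]
      have h2 := Ideal.mem_map_of_mem (map φ) q.2.2
      rwa [Ideal.map_span, ← Set.range_comp] at h2
    exact h1 h
  · intro h
    have h1 := add_mem (sub_Tr (f := f) φ g) (Tr_mem φ hf h)
    rwa [sub_add_cancel] at h1

/-- The `f'_i` after a homomorphism of the coefficients. -/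
theorem vs_map (hf : ∀ i, ∃ e, (f i).IsHomogeneous e) :
    Vs (fun i => map φ (f i)) (fun q : VI f => map φ (vf f q)) where
  hom i := (hf i).imp fun _ h => h.map φ
  hom' q := q.2.1.imp fun _ h => h.map φ
  span g := mem_vf φ hf g

end gl

end GX.Ve
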