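import Pool.Agent.Lib.MP_f80667_ag.Ve.B

/-! The points of the image of the 2-uple embedding. -/

open MvPolynomial

namespace GX.Ve

variable {N : ℕ} {ι ι' : Type} {F : Type} [Field F] {f : ι → MvPolynomial (Fin N) F}
  {f' : ι' → MvPolynomial (Fin (N * N)) F}

theorem row_vx {S : Type} [CommRing S] (l : Fin N) (x : Fin N → S) :
    row l (vx x) = x l • x := by
  funext j
  rw [row, vx, pr_nb, Pi.smul_apply, smul_eq_mul]

theorem vx_nb {S : Type} [CommRing S] (x : Fin N → S) (i j : Fin N) :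
    vx x (nb i j) = x i * x j := by
  rw [vx, pr_nb]

theorem vx_smul {S : Type} [CommRing S] (c : S) (x : Fin N → S) :
    vx (c • x) = (c ^ 2) • vx x := by
  funext q
  simp only [vx, Pi.smul_apply, smul_eq_mul]
  ring

theorem vx_ne {S : Type} [Field S] {x : Fin N → S} (h : x ≠ 0) : vx x ≠ 0 := by
  obtain ⟨l, hl⟩ := Function.ne_iff.1 h
  intro h0
  have h1 := congrFun h0 (nb l l)
  rw [vx_nb, Pi.zero_apply, mul_self_eq_zero] at h1
  exact hl h1

theorem ext_nb {S : Type} {z z' : Fin (N * N) → S} (h : ∀ i j, z (nb i j) = z' (nb i j)) :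
    z = z' := by
  funext q
  have h1 := h (pr q).1 (pr q).2
  rwa [nb_pr] at h1

section pts

variable {L : Type} [CommRing L] [Algebra F L] {z : Fin (N * N) → L}

theorem Vs.aeval_zero (h : Vs f f') (hz : ∀ i, aeval z (f' i) = 0)
    {g : MvPolynomial (Fin (N * N)) F} (hg : ver N F g ∈ Ideal.span (Set.range f)) :
    aeval z g = 0 := by
  have h1 : Ideal.span (Set.range f') ≤ RingHom.ker (aeval z : _ →ₐ[F] L) := by
    rw [Ideal.span_le]
    rintro _ ⟨i, rfl⟩
    exact hz i
  exact h1 ((h.span g).2 hg)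

theorem Vs.ker (h : Vs f f') (hz : ∀ i, aeval z (f' i) = 0) {g : MvPolynomial (Fin (N * N)) F}
    (hg : ver N F g = 0) : aeval z g = 0 := by
  refine h.aeval_zero hz ?_
  rw [hg]
  exact zero_mem _

/-- The relation `Z_ij Z_kl = Z_ik Z_jl`. -/
theorem ver_rel (i j k l : Fin N) :
    ver N F (X (nb i j) * X (nb k l) - X (nb i k) * X (nb j l)) = 0 := by
  simp only [ver, map_sub, map_mul, aeval_X, pr_nb]
  ring

theorem ver_sym (i j : Fin N) : ver N F (X (nb i j) - X (nb j i)) = 0 := by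
  simp only [ver, map_sub, aeval_X, pr_nb]
  ring

theorem Vs.rel (h : Vs f f') (hz : ∀ i, aeval z (f' i) = 0) (i j k l : Fin N) :
    z (nb i j) * z (nb k l) = z (nb i k) * z (nb j l) := by
  have h1 := h.ker hz (ver_rel i j k l)
  rw [map_sub, map_mul, map_mul, aeval_X, aeval_X, aeval_X, aeval_X, sub_eq_zero] at h1
  exact h1

theorem Vs.sym (h : Vs f f') (hz : ∀ i, aeval z (f' i) = 0) (i j : Fin N) :
    z (nb i j) = z (nb j i) := by
  have h1 := h.ker hz (ver_sym i j)
  rw [map_sub, aeval_X, aeval_X, sub_eq_zero] at h1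
  exact h1

theorem Vs.sq (h : Vs f f') (hz : ∀ i, aeval z (f' i) = 0) (i j : Fin N) :
    z (nb i j) * z (nb i j) = z (nb i i) * z (nb j j) := by
  have h1 := h.rel hz i i j j
  rw [h1]

theorem Vs.vx_row (h : Vs f f') (hz : ∀ i, aeval z (f' i) = 0) (l : Fin N) :
    vx (row l z) = z (nb l l) • z := by
  refine ext_nb fun i j => ?_
  rw [vx_nb, row, row, Pi.smul_apply, smul_eq_mul, h.rel hz l i l j]

theorem Vs.aeval_row (h : Vs f f') (hz : ∀ i, aeval z (f' i) = 0) (l : Fin N) (i : ι) :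
    aeval (row l z) (f i) = 0 := by
  obtain ⟨e, he⟩ := h.hom i
  have h1 : aeval z (rename (nb l) (f i)) = 0 := by
    refine h.aeval_zero hz ?_
    rw [ver_row l he]
    exact Ideal.mul_mem_left _ _ (Ideal.subset_span ⟨i, rfl⟩)
  rwa [aeval_rename] at h1

theorem Vs.aeval_vx (h : Vs f f') {x : Fin N → L} (hx : ∀ i, aeval x (f i) = 0) (i : ι') :
    aeval (vx x) (f' i) = 0 := by
  rw [← aeval_ver]
  have h1 : Ideal.span (Set.range f) ≤ RingHom.ker (aeval x : _ →ₐ[F] L) := by
    rw [Ideal.span_le]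
    rintro _ ⟨i, rfl⟩
    exact hx i
  exact h1 ((h.span _).1 (Ideal.subset_span ⟨i, rfl⟩))

end pts

section fld

variable {L : Type} [Field L] [Algebra F L] {z : Fin (N * N) → L}

theorem Vs.exists_ne (h : Vs f f') (hz : ∀ i, aeval z (f' i) = 0) (h0 : z ≠ 0) :
    ∃ l, z (nb l l) ≠ 0 := by
  by_contra hcon
  push Not at hcon
  refine h0 (ext_nb fun i j => ?_)
  have h1 := h.sq hz i j
  rw [hcon i, zero_mul, mul_self_eq_zero] at h1
  exact h1

theorem row_ne {l : Fin N} (hl : z (nb l l) ≠ 0) : row l z ≠ 0 := fun h0 =>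
  hl (congrFun h0 l)

/-- Rows are proportional. -/
theorem Vs.row_row (h : Vs f f') (hz : ∀ i, aeval z (f' i) = 0) (l m : Fin N) :
    z (nb l l) • row m z = z (nb l m) • row l z := by
  funext j
  simp only [Pi.smul_apply, smul_eq_mul, row]
  have h1 := h.rel hz l l m j
  exact h1

theorem Vs.ne_of (h : Vs f f') (hz : ∀ i, aeval z (f' i) = 0) {l m : Fin N}
    (hl : z (nb l l) ≠ 0) (hm : z (nb m m) ≠ 0) : z (nb l m) ≠ 0 := by
  intro h0
  have h1 := h.sq hz l m
  rw [h0, mul_zero] at h1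
  exact mul_ne_zero hl hm h1.symm

/-- If the diagonal entry is `0`, then the row is `0`. -/
theorem Vs.row_zero (h : Vs f f') (hz : ∀ i, aeval z (f' i) = 0) {l : Fin N}
    (hl : z (nb l l) = 0) : row l z = 0 := by
  funext j
  have h1 := h.sq hz l j
  rw [hl, zero_mul, mul_self_eq_zero] at h1
  exact h1

end fld

end GX.Ve
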