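import Pool.Agent.Lib.MP_f80667_ag.Gx.Lt
import Pool.Agent.Lib.MP_f80667_ag.Ve.C

/-! The tangent spaces of the image of the 2-uple embedding. -/

open MvPolynomial

namespace GX.Ve

section dd

variable {κ : Type} [Field κ] {n : ℕ}

/-- The derivative of `g` at `x` in the direction `t`. -/
noncomputable def dd (x t : Fin n → κ) (g : MvPolynomial (Fin n) κ) : κ :=
  ∑ j, eval x (pderiv j g) * t j

theorem dd_add (x t : Fin n → κ) (g h : MvPolynomial (Fin n) κ) :
    dd x t (g + h) = dd x t g + dd x t h := by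
  simp only [dd, map_add, add_mul, Finset.sum_add_distrib]

theorem dd_sub (x t : Fin n → κ) (g h : MvPolynomial (Fin n) κ) :
    dd x t (g - h) = dd x t g - dd x t h := by
  simp only [dd, map_sub, sub_mul, Finset.sum_sub_distrib]

theorem dd_mul (x t : Fin n → κ) (g h : MvPolynomial (Fin n) κ) :
    dd x t (g * h) = dd x t g * eval x h + eval x g * dd x t h := by
  simp only [dd]
  rw [Finset.sum_mul, Finset.mul_sum, ← Finset.sum_add_distrib]
  refine Finset.sum_congr rfl fun j _ => ?_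
  rw [Derivation.leibniz, smul_eq_mul, smul_eq_mul, map_add, map_mul, map_mul]
  ring

theorem dd_C (x t : Fin n → κ) (a : κ) : dd x t (C a) = 0 := by
  simp [dd]

theorem dd_X (x t : Fin n → κ) (j : Fin n) : dd x t (X j) = t j := by
  classical
  rw [dd, Finset.sum_eq_single j]
  · rw [pderiv_X_self, map_one, one_mul]
  · intro i _ hi
    rw [pderiv_X_of_ne hi.symm, map_zero, zero_mul]
  · intro h
    exact absurd (Finset.mem_univ j) h

theorem dd_vadd (x t s : Fin n → κ) (g : MvPolynomial (Fin n) κ) :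
    dd x (t + s) g = dd x t g + dd x s g := by
  simp only [dd, Pi.add_apply, mul_add, Finset.sum_add_distrib]

theorem dd_vsmul (x t : Fin n → κ) (c : κ) (g : MvPolynomial (Fin n) κ) :
    dd x (c • t) g = c * dd x t g := by
  simp only [dd, Pi.smul_apply, smul_eq_mul, Finset.mul_sum]
  exact Finset.sum_congr rfl fun j _ => by ring

theorem mem_tgs_dd {ι : Type} {f : ι → MvPolynomial (Fin n) κ} {x t : Fin n → κ} :
    t ∈ tgs f x ↔ ∀ i, dd x t (f i) = 0 := Iff.rfl

theorem dd_zero {ι : Type} {f : ι → MvPolynomial (Fin n) κ} {x t : Fin n → κ}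
    (hx : ∀ i, eval x (f i) = 0) (ht : t ∈ tgs f x) {g : MvPolynomial (Fin n) κ}
    (hg : g ∈ Ideal.span (Set.range f)) : dd x t g = 0 := by
  rw [Finsupp.mem_ideal_span_range_iff_exists_finsupp] at hg
  obtain ⟨c, rfl⟩ := hg
  have h1 : ∀ s : Finset ι, dd x t (∑ i ∈ s, c i * f i) = 0 := by
    classical
    intro s
    induction s using Finset.induction_on with
    | empty => simp [dd]
    | insert i s hi ih =>
      rw [Finset.sum_insert hi, dd_add, ih, dd_mul, hx i, mem_tgs_dd.1 ht i]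
      ring
  exact h1 _

/-- Scaling. Proof: `∂ f` is homogeneous. -/
theorem tgs_smul {ι : Type} {f : ι → MvPolynomial (Fin n) κ}
    (hf : ∀ i, ∃ e, (f i).IsHomogeneous e) (x : Fin n → κ) {c : κ} (hc : c ≠ 0) :
    tgs f (c • x) = tgs f x := by
  ext t
  rw [mem_tgs, mem_tgs]
  refine forall_congr' fun i => ?_
  obtain ⟨e, he⟩ := hf i
  have h1 : ∀ j, eval (c • x) (pderiv j (f i)) = c ^ (e - 1) * eval x (pderiv j (f i)) :=
    fun j => aeval_smul_hom (S := κ) (he.pderiv (i := j)) x c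
  have h2 : (∑ j, eval (c • x) (pderiv j (f i)) * t j) =
      c ^ (e - 1) * ∑ j, eval x (pderiv j (f i)) * t j := by
    rw [Finset.mul_sum]
    exact Finset.sum_congr rfl fun j _ => by rw [h1]; ring
  rw [h2, mul_eq_zero, or_iff_right (pow_ne_zero _ hc)]

end dd

section vs

variable {N : ℕ} {ι ι' : Type} {κ : Type} [Field κ] {f : ι → MvPolynomial (Fin N) κ}
  {f' : ι' → MvPolynomial (Fin (N * N)) κ}

/-- The derivative in the row number `l`. Proof: induction on `p`. -/
theorem dd_row (l : Fin N) (z t' : Fin (N * N) → κ) (p : MvPolynomial (Fin N) κ) :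
    dd z t' (rename (nb l) p) = dd (row l z) (row l t') p := by
  have he : ∀ p : MvPolynomial (Fin N) κ, eval z (rename (nb l) p) = eval (row l z) p :=
    fun p => by
      rw [eval_rename]
      rfl
  induction p using MvPolynomial.induction_on with
  | C a => rw [rename_C, dd_C, dd_C]
  | add p q hp hq => rw [map_add, dd_add, dd_add, hp, hq]
  | mul_X p j hp =>
    rw [map_mul, dd_mul, dd_mul, hp, rename_X, dd_X, dd_X, he, eval_X, eval_X]
    rfl

/-- The chain rule. Proof: induction on `g`. -/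
theorem dd_ver (x t : Fin N → κ) (g : MvPolynomial (Fin (N * N)) κ) :
    dd x t (ver N κ g) = dd (vx x) (dvx x t) g := by
  induction g using MvPolynomial.induction_on with
  | C a => rw [← algebraMap_eq, AlgHom.commutes, algebraMap_eq, dd_C, algebraMap_eq, dd_C]
  | add p q hp hq => rw [map_add, dd_add, dd_add, hp, hq]
  | mul_X p q hp =>
    rw [map_mul, dd_mul, dd_mul, hp, eval_ver, dd_X, eval_X]
    have h1 : ver N κ (X q) = X (pr q).1 * X (pr q).2 := aeval_X _ _
    rw [h1, dd_mul, dd_X, dd_X, eval_X, eval_X, eval_ver]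
    simp only [dvx]
    ring

variable {z t' : Fin (N * N) → κ}

theorem eval_of {n : ℕ} {α : Type} {z : Fin n → κ} {g : α → MvPolynomial (Fin n) κ}
    (hz : ∀ i, eval z (g i) = 0) (i : α) : aeval z (g i) = 0 := by
  rw [aeval_def, Algebra.algebraMap_self, eval₂_id]
  exact hz i

theorem Vs.dd_zero (h : Vs f f') (hz : ∀ i, eval z (f' i) = 0) (ht : t' ∈ tgs f' z)
    {g : MvPolynomial (Fin (N * N)) κ} (hg : ver N κ g ∈ Ideal.span (Set.range f)) :
    dd z t' g = 0 := GX.Ve.dd_zero hz ht ((h.span g).2 hg)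

theorem Vs.row_mem (h : Vs f f') (hz : ∀ i, eval z (f' i) = 0) (ht : t' ∈ tgs f' z)
    (l : Fin N) : row l t' ∈ tgs f (row l z) := by
  rw [mem_tgs_dd]
  intro i
  obtain ⟨e, he⟩ := h.hom i
  rw [← dd_row]
  refine h.dd_zero hz ht ?_
  rw [ver_row l he]
  exact Ideal.mul_mem_left _ _ (Ideal.subset_span ⟨i, rfl⟩)

/-- A tangent vector is determined by the row number `l`. -/
theorem Vs.tg_eq (h : Vs f f') (hz : ∀ i, eval z (f' i) = 0) (ht : t' ∈ tgs f' z)
    (l : Fin N) : z (nb l l) • t' = dvx (row l z) (row l t') - t' (nb l l) • z := by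
  refine ext_nb fun j k => ?_
  have h1 : dd z t' (X (nb l j) * X (nb l k) - X (nb l l) * X (nb j k)) = 0 := by
    refine h.dd_zero hz ht ?_
    rw [ver_rel]
    exact zero_mem _
  rw [dd_sub, dd_mul, dd_mul] at h1
  simp only [dd_X, eval_X] at h1
  simp only [Pi.smul_apply, smul_eq_mul, Pi.sub_apply, dvx, pr_nb, row]
  linear_combination -h1

theorem Vs.finrank_le (h : Vs f f') (hz : ∀ i, eval z (f' i) = 0) {l : Fin N}
    (hl : z (nb l l) ≠ 0) :
    Module.finrank κ (tgs f' z) ≤ Module.finrank κ (tgs f (row l z)) := by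
  let φ : tgs f' z →ₗ[κ] tgs f (row l z) :=
    { toFun := fun t => ⟨row l t.1, h.row_mem hz t.2 l⟩
      map_add' := fun _ _ => rfl
      map_smul' := fun _ _ => rfl }
  refine LinearMap.finrank_le_finrank_of_injective (f := φ) ?_
  rw [← LinearMap.ker_eq_bot, LinearMap.ker_eq_bot']
  intro t ht
  have h1 : row l t.1 = 0 := congrArg Subtype.val ht
  have h2 := h.tg_eq hz t.2 l
  have h3 : t.1 (nb l l) = 0 := congrFun h1 l
  rw [h1, h3, zero_smul, sub_zero] at h2
  have h4 : dvx (row l z) (0 : Fin N → κ) = 0 := by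
    funext q
    simp [dvx]
  rw [h4, smul_eq_zero, or_iff_right hl] at h2
  exact Subtype.ext h2

theorem Vs.dvx_mem (h : Vs f f') {x t : Fin N → κ} (hx : ∀ i, eval x (f i) = 0)
    (ht : t ∈ tgs f x) : dvx x t ∈ tgs f' (vx x) := by
  rw [mem_tgs_dd]
  intro i
  rw [← dd_ver]
  exact GX.Ve.dd_zero hx ht ((h.span _).1 (Ideal.subset_span ⟨i, rfl⟩))

theorem Vs.zp_vx (h : Vs f f') {x : Fin N → κ} (hx : Zp f x) : Zp f' (vx x) := by
  refine ⟨vx_ne hx.1, fun i => ?_⟩
  have h1 := h.aeval_vx (x := x) (eval_of hx.2) i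
  rwa [aeval_def, Algebra.algebraMap_self, eval₂_id] at h1

theorem Vs.zp_row (h : Vs f f') (hz : Zp f' z) {l : Fin N} (hl : z (nb l l) ≠ 0) :
    Zp f (row l z) := by
  refine ⟨row_ne hl, fun i => ?_⟩
  have h1 := h.aeval_row (z := z) (eval_of hz.2) l i
  rwa [aeval_def, Algebra.algebraMap_self, eval₂_id] at h1

/-- Tangent spaces and points. -/
theorem Vs.sep (h : Vs f f') {x y : Fin N → κ} (hx : Zp f x) (hy : vx y ∈ tgs f' (vx x)) :
    ∃ c : κ, y = c • x := by
  obtain ⟨l, hl⟩ := Function.ne_iff.1 hx.1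
  have h1 := h.tg_eq (h.zp_vx hx).2 hy l
  refine ⟨y l / x l, funext fun j => ?_⟩
  have h2 := congrFun h1 (nb j j)
  rw [row_vx, row_vx] at h2
  simp only [Pi.smul_apply, smul_eq_mul, Pi.sub_apply, dvx, pr_nb, vx_nb] at h2
  have h3 : (x l * y j - y l * x j) ^ 2 = 0 := by linear_combination h2
  have h4 := pow_eq_zero_iff (two_ne_zero) |>.1 h3
  have hl' : x l ≠ 0 := hl
  simp only [Pi.smul_apply, smul_eq_mul]
  field_simp
  linear_combination h4

end vs

end GX.Ve
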