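import Pool.Agent.Lib.MP_f80667_ag.Rsm.D

/-!
Models over the integers with generically reduced special fibre: definitions.

* `Ged f d`: over an (algebraically closed) field: `f = 0` has dimension at most `d` and is generically smooth: every component contains a
  point at which the tangent space of the cone has dimension at most `d + 1`.
* `Gem V f d`: the `f_i` are a flat model over the valuation ring of `F` under `V` with such a special fibre.
-/

open MvPolynomial

namespace GX

/-- The variety `f = 0` over an algebraically closed field has dimension at most `d`, and every component of it (a minimal prime ideal `P`)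
contains a point at which the tangent space of the cone has dimension at most `d + 1`. -/
structure Ged {κ : Type} [Field κ] {N : ℕ} {ι : Type} (f : ι → MvPolynomial (Fin N) κ) (d : ℕ) :
    Prop where
  hom : ∀ i, ∃ e, (f i).IsHomogeneous e
  dim : Algebra.trdeg κ (MvPolynomial (Fin N) κ ⧸ Ideal.span (Set.range f)) ≤ (d + 1 : ℕ)
  gen : ∀ P ∈ (Ideal.span (Set.range f)).minimalPrimes,
    ∃ x, Zp f x ∧ (∀ g ∈ P, eval x g = 0) ∧ Module.finrank κ (tgs f x) ≤ d + 1

/-- The `f_i` are a flat model over the valuation ring of `F` under `V` whose special fibre satisfies `Ged`: the `f_i` have coefficients in the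
valuation ring, and the ideal generated by them over the valuation ring contains every polynomial of which it contains a multiple by a
nonzero constant. -/
structure Gem {F Ω : Type} [Field F] [Field Ω] [Algebra F Ω] (V : ValuationSubring Ω) {N : ℕ}
    {ι : Type} (f : ι → MvPolynomial (Fin N) F) (d : ℕ) : Prop where
  hom : ∀ i, ∃ e, (f i).IsHomogeneous e
  red : ∃ f₀ : ι → MvPolynomial (Fin N) (Ovf V F),
    (∀ i, MvPolynomial.map (Ovf V F).subtype (f₀ i) = f i) ∧
      (∀ (r : Ovf V F) (g : MvPolynomial (Fin N) (Ovf V F)),
        r ≠ 0 → C r * g ∈ Ideal.span (Set.range f₀) → g ∈ Ideal.span (Set.range f₀)) ∧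
      Ged (fbr V f₀) d

end GX
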