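import Pool.Agent.Lib.MP_f80667_ag.Ve.D

/-! The ideal of the image of the 2-uple embedding: prime ideals, dimension, nonsingular varieties. -/

open MvPolynomial

namespace GX.Ve

variable {N : ℕ} {ι ι' : Type} {F : Type} [Field F] {f : ι → MvPolynomial (Fin N) F}
  {f' : ι' → MvPolynomial (Fin (N * N)) F}

theorem Vs.comap (h : Vs f f') :
    Ideal.span (Set.range f') = (Ideal.span (Set.range f)).comap (ver N F) := by
  ext g
  rw [Ideal.mem_comap]
  exact h.span g

theorem Vs.prime (h : Vs f f') (hp : (Ideal.span (Set.range f)).IsPrime) :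
    (Ideal.span (Set.range f')).IsPrime := by
  rw [h.comap]
  exact hp.comap _

theorem Vs.rad (h : Vs f f') (hp : (Ideal.span (Set.range f)).radical.IsPrime) :
    (Ideal.span (Set.range f')).radical.IsPrime := by
  rw [h.comap, ← Ideal.comap_radical]
  exact hp.comap _

/-- The homomorphism of the coordinate rings. -/
noncomputable def Vs.qm (h : Vs f f') :
    (MvPolynomial (Fin (N * N)) F ⧸ Ideal.span (Set.range f')) →ₐ[F]
      MvPolynomial (Fin N) F ⧸ Ideal.span (Set.range f) :=
  Ideal.quotientMapₐ _ (ver N F) h.comap.le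

theorem Vs.qm_mk (h : Vs f f') (g : MvPolynomial (Fin (N * N)) F) :
    h.qm (Ideal.Quotient.mk _ g) = Ideal.Quotient.mk _ (ver N F g) := rfl

theorem Vs.qm_inj (h : Vs f f') : Function.Injective h.qm := by
  rw [injective_iff_map_eq_zero]
  intro a ha
  obtain ⟨g, rfl⟩ := Ideal.Quotient.mk_surjective a
  rw [h.qm_mk, Ideal.Quotient.eq_zero_iff_mem] at ha
  exact Ideal.Quotient.eq_zero_iff_mem.2 ((h.span g).2 ha)

theorem Vs.trdeg_le (h : Vs f f') :
    Algebra.trdeg F (MvPolynomial (Fin (N * N)) F ⧸ Ideal.span (Set.range f')) ≤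
      Algebra.trdeg F (MvPolynomial (Fin N) F ⧸ Ideal.span (Set.range f)) :=
  trdeg_le_of_injective h.qm h.qm_inj

/-- Proof: the homogeneous coordinate ring is integral over the subring: `X_j ^ 2` is in the image. -/
theorem Vs.trdeg_eq (h : Vs f f') (hp : (Ideal.span (Set.range f)).IsPrime) :
    Algebra.trdeg F (MvPolynomial (Fin (N * N)) F ⧸ Ideal.span (Set.range f')) =
      Algebra.trdeg F (MvPolynomial (Fin N) F ⧸ Ideal.span (Set.range f)) := by
  have hp' := h.prime hp
  let A := MvPolynomial (Fin (N * N)) F ⧸ Ideal.span (Set.range f')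
  let B := MvPolynomial (Fin N) F ⧸ Ideal.span (Set.range f)
  let i1 : Algebra A B := h.qm.toRingHom.toAlgebra
  have i2 : IsScalarTower F A B := IsScalarTower.of_algebraMap_eq' h.qm.comp_algebraMap.symm
  have i3 : FaithfulSMul A B := (faithfulSMul_iff_algebraMap_injective A B).2 h.qm_inj
  have i5 : Algebra.IsIntegral A B := by
    have h1 : ∀ j : Fin N, IsIntegral A (Ideal.Quotient.mk (Ideal.span (Set.range f)) (X j)) := by
      intro j
      refine IsIntegral.of_pow two_pos ?_
      have h2 : (Ideal.Quotient.mk (Ideal.span (Set.range f)) (X j)) ^ 2 =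
          algebraMap A B (Ideal.Quotient.mk _ (X (nb j j))) := by
        change _ = h.qm _
        rw [h.qm_mk, ver, aeval_X, pr_nb, ← map_pow, pow_two]
      rw [h2]
      exact isIntegral_algebraMap
    refine ⟨fun b => ?_⟩
    obtain ⟨g, rfl⟩ := Ideal.Quotient.mk_surjective b
    induction g using MvPolynomial.induction_on with
    | C a =>
      have h2 : Ideal.Quotient.mk (Ideal.span (Set.range f)) (C a) =
          algebraMap A B (algebraMap F A a) := by
        rw [← IsScalarTower.algebraMap_apply]
        rfl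
      rw [h2]
      exact isIntegral_algebraMap
    | add p q hp hq =>
      rw [map_add]
      exact hp.add hq
    | mul_X p j hp =>
      rw [map_mul]
      exact hp.mul (h1 j)
  have i6 : Algebra.trdeg A B = 0 := trdeg_eq_zero
  have h1 := trdeg_add_eq F A (A := B)
  rw [i6, add_zero] at h1
  exact h1

/-- The image of a nonsingular variety is nonsingular. -/
theorem Vs.nsg {d : ℕ} (h : Vs f f')
    (h1 : Vs (fun i => map (algebraMap F (AlgebraicClosure F)) (f i))
      fun i => map (algebraMap F (AlgebraicClosure F)) (f' i)) (hf : Nsg f d) : Nsg f' d where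
  hom := h.hom'
  prime := h.prime hf.prime
  dim := (h.trdeg_eq hf.prime).trans hf.dim
  nsg z hz := by
    obtain ⟨l, hl⟩ := h1.exists_ne (eval_of hz.2) hz.1
    exact (h1.finrank_le hz.2 hl).trans (hf.nsg _ (h1.zp_row hz hl))

end GX.Ve
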