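import Pool.Agent.Lib.MP_f80667_ag.Rsm.Gc
import Pool.Agent.Lib.MP_f80667_ag.Ve.Def
import Pool.Agent.Lib.MP_f80667_ag.Ve.E

/-! The tangent spaces of the image of the 2-uple embedding: the condition `Gsk`. -/

open MvPolynomial

namespace GX.Ve

section hom

variable {κ : Type} [Field κ] {n : ℕ} {ι : Type} {f : ι → MvPolynomial (Fin n) κ}

attribute [local instance] MvPolynomial.gradedAlgebra in
/-- Minimal prime ideals are homogeneous. -/
theorem mp_hom (hf : ∀ i, ∃ e, (f i).IsHomogeneous e) {P : Ideal (MvPolynomial (Fin n) κ)}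
    (hP : P ∈ (Ideal.span (Set.range f)).minimalPrimes) {g : MvPolynomial (Fin n) κ}
    (hg : g ∈ P) (m : ℕ) : homogeneousComponent m g ∈ P := by
  have hpr : P.IsPrime := hP.1.1
  have hJ : (Ideal.span (Set.range f)).IsHomogeneous (homogeneousSubmodule (Fin n) κ) := by
    refine Ideal.homogeneous_span _ _ ?_
    rintro _ ⟨i, rfl⟩
    exact hf i
  have h1 : Ideal.span (Set.range f) ≤ (Ideal.homogeneousCore (homogeneousSubmodule (Fin n) κ) P).toIdeal := by
    rw [← hJ.toIdeal_homogeneousCore_eq_self]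
    exact Ideal.homogeneousCore_mono (homogeneousSubmodule (Fin n) κ) hP.1.2
  have h2 : P ≤ (Ideal.homogeneousCore (homogeneousSubmodule (Fin n) κ) P).toIdeal :=
    hP.2 ⟨hpr.homogeneousCore, h1⟩ (Ideal.toIdeal_homogeneousCore_le (homogeneousSubmodule (Fin n) κ) P)
  have h3 := (Ideal.homogeneousCore (homogeneousSubmodule (Fin n) κ) P).isHomogeneous m (h2 hg)
  have h4 := Ideal.toIdeal_homogeneousCore_le (homogeneousSubmodule (Fin n) κ) P h3
  have h5 : (DirectSum.decompose (homogeneousSubmodule (Fin n) κ) g m : MvPolynomial (Fin n) κ) =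
      homogeneousComponent m g := decomposition.decompose'_apply g m
  rwa [h5] at h4

theorem mp_smul (hf : ∀ i, ∃ e, (f i).IsHomogeneous e) {P : Ideal (MvPolynomial (Fin n) κ)}
    (hP : P ∈ (Ideal.span (Set.range f)).minimalPrimes) {x : Fin n → κ}
    (hx : ∀ g ∈ P, eval x g = 0) (c : κ) : ∀ g ∈ P, eval (c • x) g = 0 := by
  intro g hg
  rw [← sum_homogeneousComponent g, map_sum]
  refine Finset.sum_eq_zero fun m _ => ?_
  have h1 : eval (c • x) (homogeneousComponent m g) = c ^ m * eval x (homogeneousComponent m g) :=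
    aeval_smul_hom (S := κ) (homogeneousComponent_isHomogeneous m g) x c
  rw [h1, hx _ (mp_hom hf hP hg m), mul_zero]

/-- A general point. Proof: as `exists_ptS`. -/
theorem exists_gp [IsAlgClosed κ] {d : ℕ} {P : Ideal (MvPolynomial (Fin n) κ)} (hpr : P.IsPrime)
    {E : MvPolynomial (Fin n) κ} (hE : E ∉ P)
    (hx : ∃ x, (∀ g ∈ P, eval x g = 0) ∧ Module.finrank κ (tgs f x) ≤ d + 1) :
    ∃ x : Fin n → κ, (∀ g ∈ P, eval x g = 0) ∧ Module.finrank κ (tgs f x) ≤ d + 1 ∧
      eval x E ≠ 0 := by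
  classical
  obtain ⟨x₀, hx₀, hfr⟩ := hx
  obtain ⟨U, hU⟩ := exists_U1 hfr
  obtain ⟨e, he⟩ := ndg_rows hU
  let M : Matrix (Fin n) (Fin n) (MvPolynomial (Fin n) κ) := Matrix.of fun a j =>
    Sum.elim (fun i j => pderiv j (f i)) (fun r j => C (U r j)) (e a) j
  have hM : ∀ x : Fin n → κ, eval x M.det = (Matrix.of fun k => rwm f x U (e k)).det := by
    intro x
    rw [RingHom.map_det]
    congr 1
    ext a j
    change eval x (Sum.elim (fun i j => pderiv j (f i)) (fun r j => C (U r j)) (e a) j) =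
      Sum.elim (fun i j => eval x (pderiv j (f i))) U (e a) j
    rcases e a with b | b
    · rfl
    · exact eval_C _
  have hm1 : M.det ∉ P := by
    intro h
    apply he
    rw [← hM]
    exact hx₀ _ h
  have hg : M.det * E ∉ P := by
    intro h
    rcases hpr.mem_or_mem h with h1 | h1
    · exact hm1 h1
    · exact hE h1
  rw [← IsPrime.vanishingIdeal_zeroLocus (K := κ) P, mem_vanishingIdeal_iff] at hg
  push Not at hg
  obtain ⟨x, hx, hgx⟩ := hg
  have hae : ∀ p : MvPolynomial (Fin n) κ, aeval x p = eval x p := fun p =>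
    DFunLike.congr_fun (coe_aeval_eq_eval x) p
  rw [hae, map_mul] at hgx
  have h1 := mul_ne_zero_iff.1 hgx
  refine ⟨x, fun g hgP => ?_, ndg_fr (U := U) (ndg_of (e := e) ?_), h1.2⟩
  · rw [← hae]
    exact hx g hgP
  · rw [← hM]
    exact h1.1

end hom

section vs

variable {κ : Type} [Field κ] {N d : ℕ} {ι ι' : Type} {f : ι → MvPolynomial (Fin N) κ}
  {f' : ι' → MvPolynomial (Fin (N * N)) κ}

/-- If all smooth points of the component are multiples of `y`, then all points are. -/
theorem mult_of [IsAlgClosed κ] {P : Ideal (MvPolynomial (Fin N) κ)} (hpr : P.IsPrime)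
    {y : Fin N → κ} (hy : y ≠ 0)
    (hx : ∃ x, (∀ g ∈ P, eval x g = 0) ∧ Module.finrank κ (tgs f x) ≤ d + 1)
    (hc : ∀ x, x ≠ 0 → (∀ g ∈ P, eval x g = 0) → Module.finrank κ (tgs f x) ≤ d + 1 →
      ∃ c : κ, y = c • x) {x : Fin N → κ} (h : ∀ g ∈ P, eval x g = 0) : ∃ c : κ, x = c • y := by
  obtain ⟨l, hl⟩ := Function.ne_iff.1 hy
  have hl' : y l ≠ 0 := hl
  refine ⟨x l / y l, funext fun j => ?_⟩
  rw [Pi.smul_apply, smul_eq_mul]
  by_contra hcon
  have h0 : y l * x j - x l * y j ≠ 0 := by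
    intro h1
    apply hcon
    field_simp
    linear_combination h1
  have hE : (C (y l) * X j - C (y j) * X l : MvPolynomial (Fin N) κ) ∉ P := by
    intro h1
    have h2 := h _ h1
    rw [map_sub, map_mul, map_mul, eval_C, eval_C, eval_X, eval_X] at h2
    exact h0 (by linear_combination h2)
  obtain ⟨x', h1, h2, h3⟩ := exists_gp hpr hE hx
  rw [map_sub, map_mul, map_mul, eval_C, eval_C, eval_X, eval_X] at h3
  have h4 : x' ≠ 0 := by
    rintro rfl
    apply h3
    simp
  obtain ⟨c, hc'⟩ := hc x' h4 h1 h2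
  apply h3
  rw [hc', Pi.smul_apply, Pi.smul_apply, smul_eq_mul, smul_eq_mul]
  ring

/-- **The condition on the tangent spaces.** -/
theorem Vs.gsk [IsAlgClosed κ] (h : Vs f f') (hr : Ged f d) : Gsk f' d where
  hom := h.hom'
  dim := h.trdeg_le.trans hr.dim
  gen P' hP' y' hy' hs := by
    have hP1 := hP'
    rw [h.comap] at hP1
    obtain ⟨P, hP, rfl⟩ := Ideal.exists_minimalPrimes_comap_eq (ver N κ).toRingHom P' hP1
    have hpr : P.IsPrime := hP.1.1
    have hmem : ∀ g, g ∈ P.comap (ver N κ).toRingHom ↔ ver N κ g ∈ P := fun _ => Iff.rfl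
    obtain ⟨l, hl⟩ := h.exists_ne (eval_of hy'.2) hy'.1
    have hvy : vx (row l y') = y' (nb l l) • y' := h.vx_row (eval_of hy'.2) l
    have hy : Zp f (row l y') := h.zp_row hy' hl
    by_cases hA : ∃ x, Zp f x ∧ (∀ g ∈ P, eval x g = 0) ∧ Module.finrank κ (tgs f x) ≤ d + 1 ∧
        ¬ ∃ c : κ, row l y' = c • x
    · left
      obtain ⟨x, h1, h2, h3, h4⟩ := hA
      have hzx : Zp f' (vx x) := h.zp_vx h1
      refine ⟨vx x, hzx, fun g hg => ?_, ?_, fun h5 => h4 (h.sep h1 ?_)⟩
      · rw [← eval_ver]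
        exact h2 _ ((hmem g).1 hg)
      · obtain ⟨m, hm⟩ := h.exists_ne (eval_of hzx.2) hzx.1
        refine (h.finrank_le hzx.2 hm).trans ?_
        have hm' : x m ≠ 0 := by
          intro h0
          apply hm
          rw [vx_nb, h0, zero_mul]
        rw [row_vx, tgs_smul h.hom x hm']
        exact h3
      · rw [hvy]
        exact (tgs f' (vx x)).smul_mem _ h5
    · right
      have hsm := hr.gen P hP
      have hall : ∀ x, x ≠ 0 → (∀ g ∈ P, eval x g = 0) → Module.finrank κ (tgs f x) ≤ d + 1 →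
          ∃ c : κ, row l y' = c • x := by
        intro x h0 h1 h2
        by_contra h3
        exact hA ⟨x, ⟨h0, fun i => h1 _ (hP.1.2 (Ideal.subset_span ⟨i, rfl⟩))⟩, h1, h2, h3⟩
      have hmul : ∀ x, (∀ g ∈ P, eval x g = 0) → ∃ c : κ, x = c • row l y' := fun x hx =>
        mult_of hpr hy.1 (hsm.imp fun _ h => ⟨h.2.1, h.2.2⟩) hall hx
      -- `y'` is a zero of `P'`
      have hyP : ∀ g ∈ P, eval (row l y') g = 0 := by
        obtain ⟨x₁, h1, h2, h3⟩ := hsm
        obtain ⟨c, hc⟩ := hall x₁ h1.1 h2 h3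
        rw [hc]
        exact mp_smul h.hom hP h2 c
      have hyP' : ∀ g ∈ P.comap (ver N κ).toRingHom, eval y' g = 0 := by
        have h1 : ∀ g ∈ P.comap (ver N κ).toRingHom, eval (y' (nb l l) • y') g = 0 := by
          intro g hg
          rw [← hvy, ← eval_ver]
          exact hyP _ ((hmem g).1 hg)
        have h2 := mp_smul h.hom' hP' h1 (y' (nb l l))⁻¹
        rwa [inv_smul_smul₀ hl] at h2
      intro x' hx' c
      -- `x'` is a multiple of `y'`
      suffices hx : ∃ b : κ, x' = b • y' by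
        obtain ⟨b, rfl⟩ := hx
        rw [← add_smul]
        exact mp_smul h.hom' hP' hyP' _
      have hz : ∀ i, eval x' (f' i) = 0 := fun i => hx' _ (hP'.1.2 (Ideal.subset_span ⟨i, rfl⟩))
      by_cases h0 : x' = 0
      · exact ⟨0, by rw [h0, zero_smul]⟩
      obtain ⟨m, hm⟩ := h.exists_ne (eval_of hz) h0
      have hrow : ∀ g ∈ P, eval (row m x') g = 0 := by
        intro g hg
        rw [← sum_homogeneousComponent g, map_sum]
        refine Finset.sum_eq_zero fun e _ => ?_
        have h1 := hx' (rename (nb m) (homogeneousComponent e g)) (by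
          rw [hmem, ver_row m (homogeneousComponent_isHomogeneous e g)]
          exact P.mul_mem_left _ (mp_hom h.hom hP hg e))
        rw [eval_rename] at h1
        exact h1
      obtain ⟨b, hb⟩ := hmul _ hrow
      have h1 : vx (row m x') = x' (nb m m) • x' := h.vx_row (eval_of hz) m
      rw [hb, vx_smul, hvy] at h1
      refine ⟨(x' (nb m m))⁻¹ * (b ^ 2 * y' (nb l l)), ?_⟩
      rw [mul_smul, mul_smul, h1, inv_smul_smul₀ hm]

end vs

end GX.Ve
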