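import Pool.Agent.Lib.MP_f80667_ag.Ve.F

/-!
The model of the image of the 2-uple embedding.

* `fv V f₀`: the equations of the image, for a model `f₀` over the valuation ring.
-/

open MvPolynomial

namespace GX.Ve

/-- The residue field is algebraically closed. Proof: lift a monic polynomial; a root is integral over `V`, so it is in `V`. -/
theorem rf_closed {Ω : Type} [Field Ω] [IsAlgClosed Ω] (V : ValuationSubring Ω) :
    IsAlgClosed (IsLocalRing.ResidueField V) := by
  refine IsAlgClosed.of_exists_root _ fun p hp hirr => ?_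
  have hsur : Function.Surjective (IsLocalRing.residue V) := Ideal.Quotient.mk_surjective
  have hl : p ∈ Polynomial.lifts (IsLocalRing.residue V) := by
    rw [Polynomial.mem_lifts]
    exact Polynomial.map_surjective _ hsur p
  obtain ⟨q, hq, hqd, hqm⟩ := Polynomial.lifts_and_degree_eq_and_monic hl hp
  have h1 : (q.map (algebraMap V Ω)).degree ≠ 0 := by
    rw [Polynomial.degree_map_eq_of_injective (Subtype.val_injective), hqd]
    exact (Polynomial.degree_pos_of_irreducible hirr).ne'
  obtain ⟨x, hx⟩ := IsAlgClosed.exists_root _ h1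
  have hx' : Polynomial.eval₂ (algebraMap V Ω) x q = 0 := by
    rw [← Polynomial.eval_map]
    exact hx
  obtain ⟨y, hy⟩ := IsIntegrallyClosed.isIntegral_iff.1 (⟨q, hqm, hx'⟩ : IsIntegral V x)
  refine ⟨IsLocalRing.residue V y, ?_⟩
  rw [← hy, Polynomial.eval₂_at_apply] at hx'
  have h2 : q.eval y = 0 := Subtype.val_injective hx'
  rw [← hq, Polynomial.eval_map, Polynomial.eval₂_at_apply, h2, map_zero]

section model

variable {F Ω : Type} [Field F] [Field Ω] [Algebra F Ω] (V : ValuationSubring Ω) {N d : ℕ}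
  {ι : Type} {f : ι → MvPolynomial (Fin N) F} (f₀ : ι → MvPolynomial (Fin N) (Ovf V F))

/-- The equations of the image. -/
noncomputable def fv : VI f₀ → MvPolynomial (Fin (N * N)) F :=
  fun q => map (Ovf V F).subtype (vf f₀ q)

variable {V} {f₀}

theorem hom_of (hf : ∀ i, ∃ e, (f i).IsHomogeneous e)
    (h : ∀ i, map (Ovf V F).subtype (f₀ i) = f i) (i : ι) : ∃ e, (f₀ i).IsHomogeneous e := by
  obtain ⟨e, he⟩ := hf i
  refine ⟨e, fun a ha => he ?_⟩
  rw [← h i, coeff_map]
  exact fun h0 => ha (Subtype.val_injective h0)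

theorem vs_fv (hf : ∀ i, ∃ e, (f i).IsHomogeneous e)
    (h : ∀ i, map (Ovf V F).subtype (f₀ i) = f i) : Vs f (fv V f₀) := by
  have h1 := vs_map (Ovf V F).subtype (hom_of hf h)
  rw [funext h] at h1
  exact h1

theorem vs_fv' (hf : ∀ i, ∃ e, (f i).IsHomogeneous e)
    (h : ∀ i, map (Ovf V F).subtype (f₀ i) = f i) (E : Type) [Field E] [Algebra F E] :
    Vs (fun i => map (algebraMap F E) (f i)) fun q => map (algebraMap F E) (fv V f₀ q) := by
  have h1 := vs_map ((algebraMap F E).comp (Ovf V F).subtype) (hom_of hf h)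
  have h2 : (fun i => map ((algebraMap F E).comp (Ovf V F).subtype) (f₀ i)) =
      fun i => map (algebraMap F E) (f i) := by
    funext i
    rw [← map_map, h i]
  have h3 : (fun q : VI f₀ => map ((algebraMap F E).comp (Ovf V F).subtype) (vf f₀ q)) =
      fun q => map (algebraMap F E) (fv V f₀ q) := by
    funext q
    rw [← map_map]
    rfl
  rw [h2, h3] at h1
  exact h1

theorem vs_fbr (hf : ∀ i, ∃ e, (f i).IsHomogeneous e)
    (h : ∀ i, map (Ovf V F).subtype (f₀ i) = f i) : Vs (fbr V f₀) (fbr V (vf f₀)) :=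
  vs_map (rsF V F) (hom_of hf h)

/-- **The model of the image.** -/
theorem gsm_fv [IsAlgClosed Ω] (hf : ∀ i, ∃ e, (f i).IsHomogeneous e)
    (h : ∀ i, map (Ovf V F).subtype (f₀ i) = f i)
    (hs : ∀ (r : Ovf V F) (g : MvPolynomial (Fin N) (Ovf V F)),
      r ≠ 0 → C r * g ∈ Ideal.span (Set.range f₀) → g ∈ Ideal.span (Set.range f₀))
    (hr : Ged (fbr V f₀) d) : Gsm V (fv V f₀) d where
  hom := (vs_fv hf h).hom'
  red := by
    have hcl := rf_closed V
    have h1 := vs_map (RingHom.id (Ovf V F)) (hom_of hf h)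
    have h2 : (fun i => map (RingHom.id (Ovf V F)) (f₀ i)) = f₀ := funext fun i => map_id _
    have h3 : (fun q : VI f₀ => map (RingHom.id (Ovf V F)) (vf f₀ q)) = vf f₀ :=
      funext fun q => map_id _
    rw [h2, h3] at h1
    refine ⟨vf f₀, fun _ => rfl, fun r g hr0 hg => ?_, (vs_fbr hf h).gsk hr⟩
    rw [h1.span] at hg ⊢
    rw [map_mul, ← algebraMap_eq, AlgHom.commutes, algebraMap_eq] at hg
    exact hs r _ hr0 hg

end model

end GX.Ve
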