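import Pool.Agent.Lib.MP_f80667_ag.Gx.XA
import Pool.Agent.Lib.MP_f80667_ag.Sb.D
import Pool.Agent.Lib.MP_f80667_ag.Cv.Mo
import Pool.Agent.Lib.MP_f80667_ag.Ve.C

/-!
The points of the image of the 2-uple embedding.

* `Vs.mo`: the morphism `x ↦ (x_i x_j)`. `Vs.ve L`: the bijection of the points over `L`. `Vs.im`: the inverse morphism.
-/

open MvPolynomial CV ZC

namespace GX.Ve

variable {N : ℕ} {ι ι' : Type} {F : Type} [Field F] {f : ι → MvPolynomial (Fin N) F}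
  {f' : ι' → MvPolynomial (Fin (N * N)) F}

/-- The image of the coordinates. -/
def Vs.vh (h : Vs f f') {L : Type} [Field L] [Algebra F L] (P : Hp f L) : Hp f' L where
  x := vx P.x
  ne := vx_ne P.ne
  eq := h.aeval_vx P.eq

theorem Vs.vh_rel (h : Vs f f') {L : Type} [Field L] [Algebra F L] (P Q : Hp f L)
    (hr : P.Rel Q) : (h.vh P).Rel (h.vh Q) := by
  obtain ⟨c, hc, h1⟩ := hr
  refine ⟨c ^ 2, pow_ne_zero 2 hc, ?_⟩
  have h2 : Q.x = c • P.x := h1
  change vx Q.x = c ^ 2 • vx P.x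
  rw [h2, vx_smul]

/-- The morphism `x ↦ (x_i x_j)`. -/
def Vs.mo (h : Vs f f') : Mo (Xf f) (Xf f') where
  f L _ _ := Quotient.map h.vh h.vh_rel
  nat L M _ _ _ _ σ x := by
    induction x using Quotient.inductionOn with
    | h P =>
      refine congrArg (Quotient.mk _) ?_
      have h1 : (fun q => σ (vx P.x q)) = vx fun i => σ (P.x i) := by
        funext q
        exact map_mul σ _ _
      unfold Hp.mp Vs.vh
      simp only [h1]
  red K L Ω _ _ _ _ _ _ _ w x y hr := by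
    obtain ⟨P, Q, rfl, rfl, h1⟩ := hr
    refine ⟨h.vh P, h.vh Q, rfl, rfl, fun q => ?_⟩
    obtain ⟨h2, h3⟩ := h1 (pr q).1
    obtain ⟨h4, h5⟩ := h1 (pr q).2
    refine ⟨mul_mem h2 h4, ?_⟩
    change _ = Q.x (pr q).1 * Q.x (pr q).2
    rw [← h3, ← h5, ← map_mul]
    rfl

section pts

variable {L : Type} [Field L] [Algebra F L]

theorem Vs.co_mo (h : Vs f f') {P : (Xf f).pt L} {x : Fin N → L} (hP : Co P x) :
    Co (h.mo.f L P) (vx x) := by
  obtain ⟨Q, rfl, rfl⟩ := hP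
  exact ⟨h.vh Q, rfl, rfl⟩

theorem Vs.co_row (h : Vs f f') {P' : (Xf f').pt L} {z : Fin (N * N) → L} (hP : Co P' z)
    {l : Fin N} (hl : z (nb l l) ≠ 0) : ∃ P, Co P (row l z) ∧ h.mo.f L P = P' := by
  obtain ⟨P, h1⟩ := co_mk (row_ne hl) (h.aeval_row (co_zero hP) l)
  refine ⟨P, h1, ?_⟩
  have h2 := h.co_mo h1
  rw [h.vx_row (co_zero hP) l] at h2
  exact co_eq h2 (co_smul h.hom' hP hl)

theorem Vs.mo_inj (h : Vs f f') : Function.Injective (h.mo.f L) := by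
  intro P P' he
  obtain ⟨x, hx⟩ := exists_co P
  obtain ⟨x', hx'⟩ := exists_co P'
  have h1 := h.co_mo hx
  rw [he] at h1
  obtain ⟨c, hc, h2⟩ := co_rel h1 (h.co_mo hx')
  obtain ⟨l, hl⟩ := Function.ne_iff.1 (co_ne hx)
  have hl0 : x l ≠ 0 := hl
  have h3 : ∀ j, x' l * x' j = c * (x l * x j) := by
    intro j
    have h4 := h2 (nb l j)
    rwa [vx_nb, vx_nb] at h4
  have h5 : x' l ≠ 0 := by
    intro h0
    have h6 := h3 l
    rw [h0, mul_zero] at h6
    exact mul_ne_zero hc (mul_ne_zero hl0 hl0) h6.symm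
  have h6 := co_smul h.hom hx (mul_ne_zero hc hl0)
  have h7 := co_smul h.hom hx' h5
  have h8 : (fun i => x' l * x' i) = fun i => c * x l * x i := by
    funext j
    rw [h3 j, mul_assoc]
  rw [h8] at h7
  exact co_eq h6 h7

theorem Vs.mo_surj (h : Vs f f') : Function.Surjective (h.mo.f L) := by
  intro P'
  obtain ⟨z, hz⟩ := exists_co P'
  obtain ⟨l, hl⟩ := h.exists_ne (co_zero hz) (co_ne hz)
  obtain ⟨P, -, h1⟩ := h.co_row hz hl
  exact ⟨P, h1⟩

variable (L) in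
/-- The bijection of the points. -/
noncomputable def Vs.ve (h : Vs f f') : (Xf f).pt L ≃ (Xf f').pt L :=
  Equiv.ofBijective (h.mo.f L) ⟨h.mo_inj, h.mo_surj⟩

theorem Vs.ve_apply (h : Vs f f') (P : (Xf f).pt L) : h.ve L P = h.mo.f L P := rfl

theorem Vs.co_symm (h : Vs f f') {P' : (Xf f').pt L} {z : Fin (N * N) → L} (hP : Co P' z)
    {l : Fin N} (hl : z (nb l l) ≠ 0) : Co ((h.ve L).symm P') (row l z) := by
  obtain ⟨P, h1, rfl⟩ := h.co_row hP hl
  rw [← h.ve_apply, Equiv.symm_apply_apply]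
  exact h1

end pts

/-- The inverse morphism. -/
noncomputable def Vs.im (h : Vs f f') : Mo (Xf f') (Xf f) where
  f L _ _ := (h.ve L).symm
  nat L M _ _ _ _ σ x := by
    refine (Equiv.eq_symm_apply _).2 ?_
    rw [h.ve_apply, ← h.mo.nat, ← h.ve_apply, Equiv.apply_symm_apply]
  red K L Ω _ _ _ _ _ _ _ w x y hr := by
    obtain ⟨P, Q, rfl, rfl, h1⟩ := hr
    have hP : Co (Quotient.mk _ P : (Xf f').pt L) P.x := ⟨P, rfl, rfl⟩
    have hQ : Co (Quotient.mk _ Q : (Xf f').pt Ω) Q.x := ⟨Q, rfl, rfl⟩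
    obtain ⟨l, hl⟩ := h.exists_ne Q.eq Q.ne
    have hl' : P.x (nb l l) ≠ 0 := by
      intro h0
      obtain ⟨h2, h3⟩ := h1 (nb l l)
      apply hl
      rw [← h3]
      have h4 : (⟨P.x (nb l l), h2⟩ : w.V) = 0 := Subtype.ext h0
      rw [h4, map_zero]
    obtain ⟨P₁, e1, e2⟩ := h.co_symm hP hl'
    obtain ⟨Q₁, e3, e4⟩ := h.co_symm hQ hl
    refine ⟨P₁, Q₁, e1, e3, fun i => ?_⟩
    rw [e2, e4]
    exact h1 (nb l i)

end GX.Ve
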