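import Pool.Agent.Lib.MP_f80667_ag.Rsm.Ka
import Pool.Agent.Lib.MP_f80667_ag.Ve.H

/-!
Congruences and the 2-uple embedding.

* `Cg f V I P P'`: the points have primitive coordinates whose differences satisfy `I`.
-/

open MvPolynomial CV ZC

namespace GX.Ve

section val

variable {Ω : Type} [Field Ω] {V : ValuationSubring Ω}

theorem nn_mul {a b : Ω} (ha : a ∉ V.nonunits) (hb : b ∉ V.nonunits) : a * b ∉ V.nonunits := by
  rw [ValuationSubring.mem_nonunits_iff, not_lt] at ha hb ⊢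
  rw [map_mul]
  exact one_le_mul ha hb

theorem nn_left {a b : Ω} (hb : b ∈ V) (h : a * b ∉ V.nonunits) : a ∉ V.nonunits := by
  intro ha
  apply h
  rw [ValuationSubring.mem_nonunits_iff] at ha ⊢
  rw [map_mul]
  exact mul_lt_one_of_lt_of_le ha ((ValuationSubring.valuation_le_one_iff V b).2 hb)

theorem nn_add {a b : Ω} (ha : a ∈ V.nonunits) (hb : b ∈ V.nonunits) : a + b ∈ V.nonunits := by
  rw [ValuationSubring.mem_nonunits_iff] at ha hb ⊢
  exact V.valuation.map_add_lt ha hb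

theorem nn_smul {a b : Ω} (ha : a ∈ V.nonunits) (hb : b ∈ V) : a * b ∈ V.nonunits := by
  rw [ValuationSubring.mem_nonunits_iff] at ha ⊢
  rw [map_mul]
  exact mul_lt_one_of_lt_of_le ha ((ValuationSubring.valuation_le_one_iff V b).2 hb)

end val

variable {N : ℕ} {ι ι' : Type} {F : Type} [Field F] {f : ι → MvPolynomial (Fin N) F}
  {f' : ι' → MvPolynomial (Fin (N * N)) F} {Ω : Type} [Field Ω] [Algebra F Ω]
  {V : ValuationSubring Ω}

theorem pmv_vx {x : Fin N → Ω} (h : GM.Pmv V x) : GM.Pmv V (vx x) := by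
  obtain ⟨h1, l, hl⟩ := h
  refine ⟨fun q => mul_mem (h1 _) (h1 _), nb l l, ?_⟩
  rw [vx_nb]
  exact nn_mul hl hl

/-- Proof: `z_ij ^ 2 = z_ii z_jj`. -/
theorem Vs.exists_diag (h : Vs f f') {P' : (Xf f').pt Ω} {z : Fin (N * N) → Ω} (hP : Co P' z)
    (hz : GM.Pmv V z) : ∃ l, z (nb l l) ∉ V.nonunits := by
  obtain ⟨h1, q, hq⟩ := hz
  refine ⟨(pr q).1, nn_left (h1 (nb (pr q).2 (pr q).2)) ?_⟩
  rw [← h.sq (co_zero hP), nb_pr]
  exact nn_mul hq hq

theorem pmv_row {z : Fin (N * N) → Ω} (hz : GM.Pmv V z) {l : Fin N}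
    (hl : z (nb l l) ∉ V.nonunits) : GM.Pmv V (row l z) := ⟨fun _ => hz.1 _, l, hl⟩

theorem nn_ne {a : Ω} (h : a ∉ V.nonunits) : a ≠ 0 := by
  rintro rfl
  apply h
  rw [ValuationSubring.mem_nonunits_iff, map_zero]
  exact zero_lt_one

theorem Vs.co_of (h : Vs f f') {P : (Xf f).pt Ω} {z : Fin (N * N) → Ω}
    (hP : Co (h.mo.f Ω P) z) {l : Fin N} (hl : z (nb l l) ≠ 0) : Co P (row l z) := by
  have h1 := h.co_symm hP hl
  rwa [← h.ve_apply, Equiv.symm_apply_apply] at h1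

variable (f V) in
/-- The points have primitive coordinates whose differences satisfy `I`. -/
def Cg (I : Ω → Prop) (P P' : (Xf f).pt Ω) : Prop :=
  ∃ x x' : Fin N → Ω, Co P x ∧ Co P' x' ∧ GM.Pmv V x ∧ GM.Pmv V x' ∧ ∀ i, I (x i - x' i)

theorem Vs.cg (h : Vs f f') {I : Ω → Prop} (h1 : ∀ a b, I a → I b → I (a + b))
    (h2 : ∀ a b, I a → b ∈ V → I (a * b)) {P P' : (Xf f).pt Ω} (hc : Cg f V I P P') :
    Cg f' V I (h.mo.f Ω P) (h.mo.f Ω P') := by
  obtain ⟨x, x', h3, h4, h5, h6, h7⟩ := hc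
  refine ⟨vx x, vx x', h.co_mo h3, h.co_mo h4, pmv_vx h5, pmv_vx h6, fun q => ?_⟩
  have e : vx x q - vx x' q = (x (pr q).1 - x' (pr q).1) * x (pr q).2 +
      (x (pr q).2 - x' (pr q).2) * x' (pr q).1 := by
    simp only [vx]
    ring
  rw [e]
  exact h1 _ _ (h2 _ _ (h7 _) (h5.1 _)) (h2 _ _ (h7 _) (h6.1 _))

theorem Vs.cg_symm (h : Vs f f') {I : Ω → Prop} (h0 : ∀ a, I a → a ∈ V.nonunits)
    {P P' : (Xf f).pt Ω} (hc : Cg f' V I (h.mo.f Ω P) (h.mo.f Ω P')) : Cg f V I P P' := by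
  obtain ⟨z, z', h3, h4, h5, h6, h7⟩ := hc
  obtain ⟨l, hl⟩ := h.exists_diag h3 h5
  have hl' : z' (nb l l) ∉ V.nonunits := by
    intro hn
    apply hl
    have h8 := nn_add (h0 _ (h7 (nb l l))) hn
    rwa [sub_add_cancel] at h8
  exact ⟨row l z, row l z', h.co_of h3 (nn_ne hl), h.co_of h4 (nn_ne hl'), pmv_row h5 hl,
    pmv_row h6 hl', fun i => h7 _⟩

theorem Vs.srd (h : Vs f f') {P P' : (Xf f).pt Ω} :
    Srd f V P P' ↔ Srd f' V (h.mo.f Ω P) (h.mo.f Ω P') := by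
  constructor
  · intro h1
    exact h.cg (I := fun a => a ∈ V.nonunits) (fun _ _ => nn_add) (fun _ _ => nn_smul) h1
  · intro h1
    exact h.cg_symm (I := fun a => a ∈ V.nonunits) (fun _ h => h) h1

theorem Vs.cgr (h : Vs f f') {a : Ω} {P P' : (Xf f).pt Ω} :
    Cgr f V a P P' ↔ Cgr f' V a (h.mo.f Ω P) (h.mo.f Ω P') := by
  constructor
  · intro h1
    refine h.cg (I := fun x => ∃ c ∈ V, x = a * c) ?_ ?_ h1
    · rintro _ _ ⟨c, hc, rfl⟩ ⟨c', hc', rfl⟩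
      exact ⟨c + c', add_mem hc hc', (mul_add _ _ _).symm⟩
    · rintro _ b ⟨c, hc, rfl⟩ hb
      exact ⟨c * b, mul_mem hc hb, mul_assoc _ _ _⟩
  · intro h1
    by_cases ha : a ∈ V.nonunits
    · refine h.cg_symm (I := fun x => ∃ c ∈ V, x = a * c) ?_ h1
      rintro _ ⟨c, hc, rfl⟩
      exact nn_smul ha hc
    · obtain ⟨z, z', h3, h4, h5, h6, -⟩ := h1
      obtain ⟨l, hl⟩ := h.exists_diag h3 h5
      obtain ⟨l', hl'⟩ := h.exists_diag h4 h6
      have ha0 : a ≠ 0 := nn_ne ha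
      have hai : a⁻¹ ∈ V := by
        rw [ValuationSubring.mem_nonunits_iff, not_lt] at ha
        rw [← ValuationSubring.valuation_le_one_iff, map_inv₀]
        exact inv_le_one_of_one_le₀ ha
      refine ⟨row l z, row l' z', h.co_of h3 (nn_ne hl), h.co_of h4 (nn_ne hl'), pmv_row h5 hl,
        pmv_row h6 hl', fun i => ⟨(row l z i - row l' z' i) * a⁻¹, ?_, ?_⟩⟩
      · exact mul_mem (sub_mem (h5.1 _) (h6.1 _)) hai
      · rw [mul_comm, mul_assoc, inv_mul_cancel₀ ha0, mul_one]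

section cyc

/-- Sums over the image. -/
theorem sum_md {α β : Type} (e : α ≃ β) (z : α →₀ ℤ) {p : α → Prop} {p' : β → Prop}
    [DecidablePred p] [DecidablePred p'] (h : ∀ a, p a ↔ p' (e a)) :
    ∑ b ∈ (Finsupp.mapDomain e z).support.filter p', (Finsupp.mapDomain e z) b =
      ∑ a ∈ z.support.filter p, z a := by
  have h0 : ∀ a, (Finsupp.mapDomain e z) (e a) = z a := Finsupp.mapDomain_apply e.injective z
  symm
  refine Finset.sum_equiv e (fun a => ?_) fun a _ => (h0 a).symm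
  rw [Finset.mem_filter, Finset.mem_filter, Finsupp.mem_support_iff, Finsupp.mem_support_iff, h0,
    h a]

theorem Vs.zrd (h : Vs f f') {z : (Xf f).pt Ω →₀ ℤ} :
    Zrd f' V (Finsupp.mapDomain (h.mo.f Ω) z) ↔ Zrd f V z := by
  classical
  have h1 : ∀ Q, (∑ b ∈ (Finsupp.mapDomain (h.ve Ω) z).support.filter
      (fun P => Srd f' V P (h.ve Ω Q)), (Finsupp.mapDomain (h.ve Ω) z) b) =
      ∑ a ∈ z.support.filter (fun P => Srd f V P Q), z a :=
    fun Q => sum_md (h.ve Ω) z fun a => h.srd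
  unfold Zrd
  constructor
  · intro h2 Q
    rw [← h2 (h.ve Ω Q)]
    refine Eq.trans ?_ ((h1 Q).symm.trans ?_)
    · exact Finset.sum_congr (Finset.filter_congr_decidable _ _ _) fun _ _ => rfl
    · exact Finset.sum_congr (Finset.filter_congr_decidable _ _ _) fun _ _ => rfl
  · intro h2 Q'
    obtain ⟨Q, rfl⟩ := (h.ve Ω).surjective Q'
    rw [← h2 Q]
    refine Eq.trans ?_ ((h1 Q).trans ?_)
    · exact Finset.sum_congr (Finset.filter_congr_decidable _ _ _) fun _ _ => rfl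
    · exact Finset.sum_congr (Finset.filter_congr_decidable _ _ _) fun _ _ => rfl

theorem Vs.zra (h : Vs f f') {a : Ω} {z : (Xf f).pt Ω →₀ ℤ} :
    Zra f' V a (Finsupp.mapDomain (h.mo.f Ω) z) ↔ Zra f V a z := by
  classical
  have h1 : ∀ Q, (∑ b ∈ (Finsupp.mapDomain (h.ve Ω) z).support.filter
      (fun P => Cgr f' V a P (h.ve Ω Q)), (Finsupp.mapDomain (h.ve Ω) z) b) =
      ∑ b ∈ z.support.filter (fun P => Cgr f V a P Q), z b :=
    fun Q => sum_md (h.ve Ω) z fun b => h.cgr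
  unfold Zra
  constructor
  · intro h2 Q
    rw [← h2 (h.ve Ω Q)]
    refine Eq.trans ?_ ((h1 Q).symm.trans ?_)
    · exact Finset.sum_congr (Finset.filter_congr_decidable _ _ _) fun _ _ => rfl
    · exact Finset.sum_congr (Finset.filter_congr_decidable _ _ _) fun _ _ => rfl
  · intro h2 Q'
    obtain ⟨Q, rfl⟩ := (h.ve Ω).surjective Q'
    rw [← h2 Q]
    refine Eq.trans ?_ ((h1 Q).trans ?_)
    · exact Finset.sum_congr (Finset.filter_congr_decidable _ _ _) fun _ _ => rfl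
    · exact Finset.sum_congr (Finset.filter_congr_decidable _ _ _) fun _ _ => rfl

variable {K : Type} [Field K] [Algebra F K] [Algebra K Ω] [IsScalarTower F K Ω]

theorem Vs.rcj (h : Vs f f') {D : ℕ} {Q : (Xf f).pt Ω} (hQ : Rcj f V K D Q) :
    Rcj f' V K D (h.mo.f Ω Q) := by
  classical
  obtain ⟨s, hs, h1⟩ := hQ
  refine ⟨s.image (h.mo.f Ω), Finset.card_image_le.trans hs, fun γ => ?_⟩
  obtain ⟨P, hP, h2⟩ := h1 γ
  refine ⟨h.mo.f Ω P, Finset.mem_image_of_mem _ hP, ?_⟩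
  rw [h.mo.act]
  exact h.srd.1 h2

theorem Vs.zrb (h : Vs f f') {D : ℕ} {z : (Xf f).pt Ω →₀ ℤ} (hz : Zrb f V K D z) :
    Zrb f' V K D (Finsupp.mapDomain (h.mo.f Ω) z) := by
  classical
  intro Q' hQ'
  obtain ⟨Q, rfl⟩ := (h.ve Ω).surjective Q'
  refine h.rcj (hz Q ?_)
  intro h0
  apply hQ'
  rw [← h0]
  refine Eq.trans ?_ (sum_md (p := fun P => Srd f V P Q) (p' := fun P => Srd f' V P (h.ve Ω Q))
    (h.ve Ω) z fun a => h.srd)
  exact Finset.sum_congr (Finset.filter_congr_decidable _ _ _) fun _ _ => rfl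

theorem Vs.im_mo (h : Vs f f') (z : (Xf f).pt Ω →₀ ℤ) :
    Finsupp.mapDomain (h.im.f Ω) (Finsupp.mapDomain (h.mo.f Ω) z) = z := by
  rw [← Finsupp.mapDomain_comp]
  have h1 : h.im.f Ω ∘ h.mo.f Ω = id := funext fun P => (h.ve Ω).symm_apply_apply P
  rw [h1, Finsupp.mapDomain_id]

theorem Vs.mo_im (h : Vs f f') (z : (Xf f').pt Ω →₀ ℤ) :
    Finsupp.mapDomain (h.mo.f Ω) (Finsupp.mapDomain (h.im.f Ω) z) = z := by
  rw [← Finsupp.mapDomain_comp]
  have h1 : h.mo.f Ω ∘ h.im.f Ω = id := funext fun P => (h.ve Ω).apply_symm_apply P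
  rw [h1, Finsupp.mapDomain_id]

omit [IsScalarTower F K Ω] in
theorem Vs.ratEq (h : Vs f f') {z : (Xf f).pt Ω →₀ ℤ} :
    Finsupp.mapDomain (h.mo.f Ω) z ∈ (Xf f').ratEq K Ω ↔ z ∈ (Xf f).ratEq K Ω := by
  constructor
  · intro h1
    have h2 := h.im.ratEq K Ω h1
    rwa [h.im_mo] at h2
  · exact fun h1 => h.mo.ratEq K Ω h1

theorem Vs.cyc (h : Vs f f') {z : (Xf f).pt Ω →₀ ℤ} :
    Finsupp.mapDomain (h.mo.f Ω) z ∈ (Xf f').cyc K Ω ↔ z ∈ (Xf f).cyc K Ω := by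
  constructor
  · intro h1
    have h2 := h.im.cyc (K := K) h1
    rwa [h.im_mo] at h2
  · exact fun h1 => h.mo.cyc h1

end cyc

end GX.Ve
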