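import Pool.Agent.Lib.MP_f80667_ag.Ve.G
import Pool.Agent.Lib.MP_f80667_ag.Ve.I

/-! Points with smooth reduction and the 2-uple embedding. -/

open MvPolynomial CV ZC

namespace GX.Ve

variable {F Ω : Type} [Field F] [Field Ω] [Algebra F Ω] {V : ValuationSubring Ω} {N d : ℕ}
  {ι : Type} {f : ι → MvPolynomial (Fin N) F} {f₀ : ι → MvPolynomial (Fin N) (Ovf V F)}

/-- The reduction of a zero is a zero. -/
theorem fbr_zero (h : ∀ i, map (Ovf V F).subtype (f₀ i) = f i) {x : Fin N → V}
    (hx : ∀ i, aeval (fun j => (x j : Ω)) (f i) = 0) (i : ι) :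
    eval (fun j => IsLocalRing.residue V (x j)) (fbr V f₀ i) = 0 := by
  let ψ : Ovf V F →+* V :=
    ((algebraMap F Ω).comp (Ovf V F).subtype).codRestrict V fun x => x.2
  have h1 : eval₂ ψ x (f₀ i) = 0 := by
    refine Subtype.val_injective ?_
    have h2 := hx i
    rw [← h i, aeval_def, eval₂_map] at h2
    have h3 := hom_eval₂ (f₀ i) ψ V.subtype x
    exact h3.trans h2
  have h2 := hom_eval₂ (f₀ i) ψ (IsLocalRing.residue V) x
  rw [h1, map_zero] at h2
  change eval _ (map (rsF V F) (f₀ i)) = 0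
  rw [eval_map]
  exact h2.symm

/-- **Points with smooth reduction.** -/
theorem smo_mo (hf : ∀ i, ∃ e, (f i).IsHomogeneous e)
    (h : ∀ i, map (Ovf V F).subtype (f₀ i) = f i) {P : (Xf f).pt Ω} (hP : Smo V f d P) :
    Smo V (fv V f₀) d ((vs_fv hf h).mo.f Ω P) := by
  obtain ⟨f₁, h1, x, hx, ⟨l, hl⟩, hs⟩ := hP
  have e : f₁ = f₀ := funext fun i => map_injective _ Subtype.val_injective ((h1 i).trans (h i).symm)
  subst e
  refine ⟨vf f₁, fun _ => rfl, vx x, (vs_fv hf h).co_mo hx, ⟨nb l l, ?_⟩, ?_⟩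
  · rw [vx_nb]
    exact hl.mul hl
  · have hk := vs_fbr hf h
    have hz : ∀ i, eval (fun j => IsLocalRing.residue V (x j)) (fbr V f₁ i) = 0 :=
      fbr_zero h (co_zero hx)
    have e1 : (fun q => IsLocalRing.residue V (vx x q)) =
        vx fun j => IsLocalRing.residue V (x j) := funext fun q => map_mul _ _ _
    unfold Sky
    rw [e1]
    have hz' : ∀ i, eval (vx fun j => IsLocalRing.residue V (x j)) (fbr V (vf f₁) i) = 0 := by
      intro i
      have h2 := hk.aeval_vx (x := fun j => IsLocalRing.residue V (x j)) (eval_of hz) i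
      rwa [aeval_def, Algebra.algebraMap_self, eval₂_id] at h2
    have hl' : IsLocalRing.residue V (x l) ≠ 0 := (hl.map (IsLocalRing.residue V)).ne_zero
    have hll : vx (fun j => IsLocalRing.residue V (x j)) (nb l l) ≠ 0 := by
      rw [vx_nb]
      exact mul_ne_zero hl' hl'
    refine (hk.finrank_le hz' hll).trans ?_
    rw [row_vx, tgs_smul hk.hom _ hl']
    exact hs

end GX.Ve
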