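import Pool.Agent.Lib.MP_f80667_ag.Gx.HyDb
import Pool.Agent.Lib.MP_f80667_ag.Ve.D

/-! Global `1`-forms and the 2-uple embedding. -/

open MvPolynomial

namespace GX.Ve

variable {κ : Type} [Field κ] {N : ℕ} {ι ι' : Type} {g : ι → MvPolynomial (Fin N) κ}
  {g' : ι' → MvPolynomial (Fin (N * N)) κ}

theorem dvx_smul (c : κ) (x t : Fin N → κ) : dvx (c • x) (c • t) = c ^ 2 • dvx x t := by
  funext q
  simp only [dvx, Pi.smul_apply, smul_eq_mul]
  ring

theorem dvx_rad (c : κ) (x : Fin N → κ) : dvx x (c • x) = (2 * c) • vx x := by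
  funext q
  simp only [dvx, vx, Pi.smul_apply, smul_eq_mul]
  ring

theorem Vs.tg_vx (h : Vs g g') {x t : Fin N → κ} (ht : Tg g x t) : Tg g' (vx x) (dvx x t) :=
  ⟨h.zp_vx ht.1, h.dvx_mem ht.1.2 ht.2⟩

/-- The pullback of a form. -/
theorem Vs.frm (h : Vs g g') {ℓ : (Fin (N * N) → κ) → (Fin (N * N) → κ) → κ} (hℓ : Frm g' ℓ) :
    Frm g fun x t => ℓ (vx x) (dvx x t) where
  hom x t c hc ht := by
    rw [vx_smul, dvx_smul]
    exact hℓ.hom _ _ _ (pow_ne_zero 2 hc) (h.tg_vx ht)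
  rad x c hx := by
    rw [dvx_rad]
    exact hℓ.rad _ _ (h.zp_vx hx)
  reg y hy := by
    classical
    obtain ⟨Q, A, h1, h2⟩ := hℓ.reg (vx y) (h.zp_vx hy)
    refine ⟨ver N κ Q, fun j => ∑ q, ver N κ (A q) *
      ((if (pr q).2 = j then X (pr q).1 else 0) + if (pr q).1 = j then X (pr q).2 else 0), ?_,
      fun x t ht hQ => ?_⟩
    · rw [eval_ver]
      exact h1
    · rw [eval_ver] at hQ ⊢
      rw [h2 _ _ (h.tg_vx ht) hQ]
      simp only [map_sum, Finset.sum_mul]
      rw [Finset.sum_comm]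
      refine Finset.sum_congr rfl fun q _ => ?_
      have e : ∀ j, eval x (ver N κ (A q) * ((if (pr q).2 = j then X (pr q).1 else 0) +
          if (pr q).1 = j then X (pr q).2 else 0)) * t j =
          eval (vx x) (A q) * ((if (pr q).2 = j then x (pr q).1 * t j else 0) +
            if (pr q).1 = j then x (pr q).2 * t j else 0) := by
        intro j
        rw [map_mul, map_add, eval_ver]
        split_ifs <;> simp <;> ring
      rw [Finset.sum_congr rfl fun j _ => e j, ← Finset.mul_sum, Finset.sum_add_distrib,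
        Finset.sum_ite_eq, Finset.sum_ite_eq, if_pos (Finset.mem_univ _),
        if_pos (Finset.mem_univ _)]
      rfl

/-- The value of the form. -/
theorem Vs.frm_row (h : Vs g g') {ℓ : (Fin (N * N) → κ) → (Fin (N * N) → κ) → κ}
    (hℓ : Frm g' ℓ) {z t : Fin (N * N) → κ} (ht : Tg g' z t) {l : Fin N}
    (hl : z (nb l l) ≠ 0) : ℓ (vx (row l z)) (dvx (row l z) (row l t)) = ℓ z t := by
  have h1 : vx (row l z) = z (nb l l) • z := h.vx_row (eval_of ht.1.2) l
  have h2 : dvx (row l z) (row l t) =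
      z (nb l l) • (t + (t (nb l l) / z (nb l l)) • z) := by
    have h3 := h.tg_eq ht.1.2 ht.2 l
    have h4 : z (nb l l) • (t (nb l l) / z (nb l l)) • z = t (nb l l) • z := by
      rw [smul_smul, mul_div_cancel₀ _ hl]
    rw [smul_add, h3, h4, sub_add_cancel]
  have h5 : Tg g' z ((t (nb l l) / z (nb l l)) • z) := tg_rad h.hom' ht.1 _
  rw [h1, h2, hℓ.hom _ _ _ hl (tg_add ht h5), frm_add hℓ ht h5, hℓ.rad _ _ ht.1, add_zero]

end GX.Ve
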