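import Pool.Agent.Lib.MP_f80667_ag.Sb.A
import Pool.Agent.Lib.MP_f80667_ag.Ve.H
import Pool.Agent.Lib.MP_f80667_ag.Ve.K

/-!
Morphisms and the 2-uple embedding.

* `mfv h M`: the morphism `M` on the image, given by the vectors `Φ_i` in the rows.
-/

open MvPolynomial CV ZC

namespace GX.Ve

variable {F : Type} [Field F] {N N' k k' : ℕ} {ι ι' α : Type} {f : ι → MvPolynomial (Fin N) F}
  {f' : ι' → MvPolynomial (Fin (N * N)) F} {A : Gv F N' k' α}

/-- The morphism on the image. -/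
noncomputable def mfv (h : Vs f f') (M : Mf f A k) : Mf f' A (k * N) where
  Φ q j := rename (nb (finProdFinEquiv.symm q).2) (M.Φ (finProdFinEquiv.symm q).1 j)
  φ E _ _ P := M.φ E ((h.ve E).symm P)

theorem mfv_pv (h : Vs f f') (M : Mf f A k) {E : Type} [CommRing E] [Algebra F E]
    (q : Fin (k * N)) (z : Fin (N * N) → E) :
    (mfv h M).pv q z = M.pv (finProdFinEquiv.symm q).1 (row (finProdFinEquiv.symm q).2 z) := by
  funext j
  exact aeval_rename _ _ _

theorem dd_map {E : Type} [Field E] [Algebra F E] {n : ℕ} (x t : Fin n → E)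
    (p : MvPolynomial (Fin n) F) :
    dd x t (map (algebraMap F E) p) = ∑ s, aeval x (pderiv s p) * t s := by
  refine Finset.sum_congr rfl fun s _ => ?_
  rw [pderiv_map, eval_map, aeval_def]

theorem mfv_dv (h : Vs f f') (M : Mf f A k) {E : Type} [Field E] [Algebra F E]
    (q : Fin (k * N)) (z t : Fin (N * N) → E) :
    (mfv h M).dv q z t = M.dv (finProdFinEquiv.symm q).1 (row (finProdFinEquiv.symm q).2 z)
      (row (finProdFinEquiv.symm q).2 t) := by
  funext j
  change (∑ s, aeval z (pderiv s (rename (nb (finProdFinEquiv.symm q).2)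
    (M.Φ (finProdFinEquiv.symm q).1 j))) * t s) = ∑ s, _ * _
  rw [← dd_map, ← dd_map, map_rename, dd_row]

theorem pv_zero {M : Mf f A k} (h0 : ∀ i j, constantCoeff (M.Φ i j) = 0) {E : Type} [CommRing E]
    [Algebra F E] (i : Fin k) : M.pv i (0 : Fin N → E) = 0 := by
  funext j
  change aeval (0 : Fin N → E) (M.Φ i j) = 0
  rw [aeval_zero, h0, map_zero]

theorem mfv_ok (h : Vs f f') {M : Mf f A k} (hM : M.Ok)
    (h0 : ∀ i j, constantCoeff (M.Φ i j) = 0) : (mfv h M).Ok where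
  ne E _ _ P z hz := by
    obtain ⟨l, hl⟩ := h.exists_ne (co_zero hz) (co_ne hz)
    obtain ⟨i, hi⟩ := hM.ne E _ _ (h.co_symm hz hl)
    refine ⟨finProdFinEquiv (i, l), ?_⟩
    rw [mfv_pv, Equiv.symm_apply_apply]
    exact hi
  co E _ _ P z q hz hq := by
    rw [mfv_pv] at hq ⊢
    refine hM.co E _ _ _ (h.co_symm hz ?_) hq
    intro hl
    rw [h.row_zero (co_zero hz) hl] at hq
    exact hq (pv_zero h0 _)

theorem mfv_alb (h : Vs f f') {M : Mf f A k} (h0 : ∀ i j, constantCoeff (M.Φ i j) = 0)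
    {E : Type} [Field E] [Algebra F E]
    (h1 : Vs (fun i => map (algebraMap F E) (f i)) fun i => map (algebraMap F E) (f' i))
    (hb : M.Alb E) : (mfv h M).Alb E := by
  intro ℓ hℓ
  obtain ⟨η, h2, h3⟩ := hb _ (h1.frm hℓ)
  refine ⟨η, h2, fun z t ht q i' hq => ?_⟩
  rw [mfv_pv] at hq ⊢
  rw [mfv_dv]
  have hl : z (nb (finProdFinEquiv.symm q).2 (finProdFinEquiv.symm q).2) ≠ 0 := by
    intro hl
    rw [h1.row_zero (eval_of ht.1.2) hl] at hq
    exact hq (pv_zero h0 _)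
  have h4 := h3 _ _ ⟨h1.zp_row ht.1 hl, h1.row_mem ht.1.2 ht.2 _⟩ _ i' hq
  rw [h1.frm_row hℓ ht hl] at h4
  exact h4

end GX.Ve
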