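import Pool.Agent.Lib.MP_f80667_ag.Ve.R

/-!
Constant morphisms.

* `cw M i₀`: the vector of the constant terms of `Φ_i₀`. If it is not `0`, then the morphism is constant with this value.
* `mfc h M i₀`: the constant morphism on the image of the 2-uple embedding.
-/

open MvPolynomial CV ZC

namespace GX.Ve

variable {F : Type} [Field F] {N N' k k' d : ℕ} {ι α : Type} {f : ι → MvPolynomial (Fin N) F}
  {A : Gv F N' k' α} {M : Mf f A k} {i₀ : Fin k}

variable (M i₀) in
/-- The vector of the constant terms. -/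
noncomputable def cw : Fin N' → F := fun j => constantCoeff (M.Φ i₀ j)

/-- The value of the morphism. Proof: `Φ_i₀ (s x)` is a multiple of coordinates `y` of the value for all `s ≠ 0`, so for `s = 0`. -/
theorem const_co [CharZero F] (hf : Hm f) (hA : A.Ok) (hM : M.Ok) (h0 : cw M i₀ ≠ 0) {E : Type}
    [Field E] [Algebra F E] (P : (Xf f).pt E) :
    Co (M.φ E P) fun j => algebraMap F E (cw M i₀ j) := by
  have hinf : Infinite E := Infinite.of_injective _ (algebraMap F E).injective
  obtain ⟨x, hx⟩ := exists_co P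
  obtain ⟨i₁, hi₁⟩ := hM.ne E P x hx
  have hy := hM.co E P x i₁ hx hi₁
  obtain ⟨y, hye⟩ : ∃ y, y = M.pv i₁ x := ⟨_, rfl⟩
  rw [← hye] at hy hi₁
  let U : Fin N' → Polynomial E := fun j =>
    aeval (fun l => Polynomial.C (x l) * Polynomial.X) (M.Φ i₀ j)
  have hU : ∀ s j, (U j).eval s = M.pv i₀ (fun l => s * x l) j := by
    intro s j
    have h1 : ((Polynomial.aeval (s : E)).restrictScalars F).comp
        (aeval (fun l => Polynomial.C (x l) * Polynomial.X)) =
        (aeval (fun l => s * x l) : MvPolynomial (Fin N) F →ₐ[F] E) := by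
      refine algHom_ext fun l => ?_
      rw [AlgHom.comp_apply, aeval_X, aeval_X]
      change Polynomial.aeval s (Polynomial.C (x l) * Polynomial.X) = s * x l
      rw [map_mul, Polynomial.aeval_C, Polynomial.aeval_X, mul_comm]
      rfl
    exact DFunLike.congr_fun h1 (M.Φ i₀ j)
  have hU0 : ∀ j, (U j).eval 0 = algebraMap F E (cw M i₀ j) := by
    intro j
    rw [hU]
    have h1 : (fun l => (0 : E) * x l) = (0 : Fin N → E) := funext fun l => zero_mul _
    rw [h1]
    exact aeval_zero _
  have key : ∀ j m, algebraMap F E (cw M i₀ j) * y m = algebraMap F E (cw M i₀ m) * y j := by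
    intro j m
    have h1 : U j * Polynomial.C (y m) - U m * Polynomial.C (y j) = 0 := by
      refine pol_zero fun s hs => ?_
      rw [Polynomial.eval_sub, Polynomial.eval_mul, Polynomial.eval_mul, Polynomial.eval_C,
        Polynomial.eval_C, hU, hU, sub_eq_zero]
      by_cases hp : M.pv i₀ (fun l => s * x l) = 0
      · rw [hp, Pi.zero_apply, Pi.zero_apply, zero_mul, zero_mul]
      · obtain ⟨c, -, h2⟩ := co_rel hy (hM.co E P _ i₀ (co_smul hf hx hs) hp)
        rw [h2 j, h2 m]
        ring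
    have h2 := congrArg (Polynomial.eval 0) h1
    rw [Polynomial.eval_sub, Polynomial.eval_mul, Polynomial.eval_mul, Polynomial.eval_C,
      Polynomial.eval_C, hU0, hU0, Polynomial.eval_zero, sub_eq_zero] at h2
    exact h2
  obtain ⟨m, hm⟩ := Function.ne_iff.1 hi₁
  have hm' : y m ≠ 0 := hm
  have hw : (fun j => algebraMap F E (cw M i₀ j)) =
      fun j => algebraMap F E (cw M i₀ m) / y m * y j := by
    funext j
    rw [div_mul_eq_mul_div, ← key, mul_div_cancel_right₀ _ hm']
  rw [hw]
  refine co_smul hA.hm hy ?_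
  intro hz
  apply h0
  funext j
  have h1 := congrFun hw j
  simp only [hz, zero_mul] at h1
  exact (map_eq_zero _).1 h1

/-- The minors are in the ideal. Proof: the generic point. -/
theorem minor_mem [CharZero F] (hf : Hm f) (hp : (Ideal.span (Set.range f)).IsPrime)
    (hA : A.Ok) (hM : M.Ok) (h0 : cw M i₀ ≠ 0)
    (hX : ∃ l, (X l : MvPolynomial (Fin N) F) ∉ Ideal.span (Set.range f)) (i : Fin k)
    (j m : Fin N') :
    M.Φ i j * C (cw M i₀ m) - M.Φ i m * C (cw M i₀ j) ∈ Ideal.span (Set.range f) := by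
  let I := Ideal.span (Set.range f)
  let E := FractionRing (MvPolynomial (Fin N) F ⧸ I)
  have hinj : Function.Injective (algebraMap (MvPolynomial (Fin N) F ⧸ I) E) :=
    IsFractionRing.injective _ _
  let x : Fin N → E := fun l => algebraMap _ E (Ideal.Quotient.mk I (X l))
  have hx : ∀ g : MvPolynomial (Fin N) F, aeval x g = algebraMap _ E (Ideal.Quotient.mk I g) := by
    intro g
    have h1 : aeval x = (IsScalarTower.toAlgHom F (MvPolynomial (Fin N) F ⧸ I) E).comp
        (Ideal.Quotient.mkₐ F I) := by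
      refine algHom_ext fun l => ?_
      rw [aeval_X]
      rfl
    rw [h1]
    rfl
  have hx0 : ∀ g ∈ I, aeval x g = 0 := by
    intro g hg
    rw [hx, Ideal.Quotient.eq_zero_iff_mem.2 hg, map_zero]
  have hxn : x ≠ 0 := by
    obtain ⟨l, hl⟩ := hX
    intro h1
    have h2 := congrFun h1 l
    have h3 := hinj (h2.trans (map_zero _).symm)
    exact hl (Ideal.Quotient.eq_zero_iff_mem.1 h3)
  obtain ⟨P, hP⟩ := co_mk hxn fun i => hx0 _ (Ideal.subset_span ⟨i, rfl⟩)
  have h1 : aeval x (M.Φ i j * C (cw M i₀ m) - M.Φ i m * C (cw M i₀ j)) = 0 := by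
    have e : ∀ j m, aeval x (M.Φ i j * C (cw M i₀ m)) =
        M.pv i x j * algebraMap F E (cw M i₀ m) := by
      intro j m
      rw [map_mul, aeval_C]
      rfl
    rw [map_sub, e, e, sub_eq_zero]
    by_cases hp : M.pv i x = 0
    · rw [hp, Pi.zero_apply, Pi.zero_apply, zero_mul, zero_mul]
    · obtain ⟨c, -, h2⟩ := co_rel (const_co hf hA hM h0 P) (hM.co E P x i hP hp)
      rw [h2 j, h2 m]
      ring
  rw [hx] at h1
  exact Ideal.Quotient.eq_zero_iff_mem.1 (hinj (h1.trans (map_zero _).symm))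

section tan

variable {E : Type} [Field E] [Algebra F E]

/-- The derivative is a multiple of the value. -/
theorem dv_minor [CharZero F] (hf : Hm f) (hp : (Ideal.span (Set.range f)).IsPrime)
    (hA : A.Ok) (hM : M.Ok) (h0 : cw M i₀ ≠ 0) {x t : Fin N → E}
    (ht : Tg (fun i => map (algebraMap F E) (f i)) x t) (i : Fin k) (j m : Fin N') :
    M.dv i x t j * algebraMap F E (cw M i₀ m) = M.dv i x t m * algebraMap F E (cw M i₀ j) := by
  have hx : ∀ g ∈ Ideal.span (Set.range f), aeval x g = 0 := by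
    intro g hg
    have h1 : Ideal.span (Set.range f) ≤ RingHom.ker (aeval x : _ →ₐ[F] E) := by
      rw [Ideal.span_le]
      rintro _ ⟨i, rfl⟩
      have h2 := ht.1.2 i
      rw [eval_map] at h2
      exact h2
    exact h1 hg
  have hX : ∃ l, (X l : MvPolynomial (Fin N) F) ∉ Ideal.span (Set.range f) := by
    by_contra hcon
    push Not at hcon
    refine ht.1.1 (funext fun l => ?_)
    have h1 := hx _ (hcon l)
    rwa [aeval_X] at h1
  have h1 := Ideal.mem_map_of_mem (map (algebraMap F E)) (minor_mem hf hp hA hM h0 hX i j m)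
  rw [Ideal.map_span, ← Set.range_comp] at h1
  have h2 := dd_zero ht.1.2 ht.2 h1
  have h3 : ∀ j m, dd x t (map (algebraMap F E) (M.Φ i j * C (cw M i₀ m))) =
      M.dv i x t j * algebraMap F E (cw M i₀ m) := by
    intro j m
    rw [map_mul, map_C, dd_mul, dd_C, mul_zero, add_zero, eval_C, dd_map]
    rfl
  rw [map_sub, dd_sub, h3, h3, sub_eq_zero] at h2
  exact h2

/-- **There are no forms.** Proof: the derivatives are radial (`dv_minor`), `dm_rad`. -/
theorem frm_zero [CharZero F] (hf : Hm f) (hp : (Ideal.span (Set.range f)).IsPrime)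
    (hA : A.Ok) (hM : M.Ok) (h0 : cw M i₀ ≠ 0) (hb : M.Alb E)
    {ℓ : (Fin N → E) → (Fin N → E) → E} (hℓ : Frm (fun i => map (algebraMap F E) (f i)) ℓ)
    {x t : Fin N → E} (ht : Tg (fun i => map (algebraMap F E) (f i)) x t) : ℓ x t = 0 := by
  have hinf : Infinite E := Infinite.of_injective _ (algebraMap F E).injective
  obtain ⟨η, h1, h2⟩ := hb ℓ hℓ
  obtain ⟨P, hP⟩ := co_mk (f := f) (E := E) ht.1.1 fun i => by
    have h2 := ht.1.2 i
    rw [eval_map] at h2
    exact h2
  obtain ⟨i, hi⟩ := hM.ne E P x hP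
  have hQ := hM.co E P x i hP hi
  obtain ⟨i', hi'⟩ := hA.ne E _ _ _ _ hQ hQ
  have h3 := h2 x t ht i i' hi
  have hj : A.mv i' (M.pv i x) (M.pv i x) A.j₀ ≠ 0 := by
    intro hj
    apply hi'
    funext j
    rw [mv_self hA hQ hQ, hj, zero_mul]
    rfl
  obtain ⟨m, hm⟩ := Function.ne_iff.1 h0
  have hm0 : cw M i₀ m ≠ 0 := hm
  have hm' : algebraMap F E (cw M i₀ m) ≠ 0 := (map_ne_zero _).2 hm0
  -- the value is a multiple of `cw`
  obtain ⟨c, hc, hc'⟩ := co_rel (const_co hf hA hM h0 P) hQ
  have hd : M.dv i x t = (M.dv i x t m / (c * algebraMap F E (cw M i₀ m))) • M.pv i x := by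
    funext j
    rw [Pi.smul_apply, smul_eq_mul, hc' j]
    have h4 := dv_minor hf hp hA hM h0 ht i j m
    field_simp
    linear_combination h4
  rw [hd] at h3
  have h5 : ∑ j, η j * A.dm i' (M.pv i x)
      ((M.dv i x t m / (c * algebraMap F E (cw M i₀ m))) • M.pv i x) j = 0 := by
    have h6 : ∀ j, η j * A.dm i' (M.pv i x)
        ((M.dv i x t m / (c * algebraMap F E (cw M i₀ m))) • M.pv i x) j =
        A.dm i' (M.pv i x) ((M.dv i x t m / (c * algebraMap F E (cw M i₀ m))) • M.pv i x) A.j₀ *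
          (η j * algebraMap F E (A.o j)) := by
      intro j
      rw [dm_rad hA hQ]
      ring
    rw [Finset.sum_congr rfl fun j _ => h6 j, ← Finset.mul_sum, h1, mul_zero]
  rw [h5, mul_eq_zero, or_iff_right hj] at h3
  exact h3

end tan

section img

variable {β : Type} {f' : β → MvPolynomial (Fin (N * N)) F}

variable (M i₀) in
/-- The constant morphism on the image. -/
noncomputable def mfc (h : Vs f f') : Mf f' A 1 where
  Φ _ j := C (cw M i₀ j)
  φ E _ _ P := M.φ E ((h.ve E).symm P)

theorem mfc_pv (h : Vs f f') {E : Type} [CommRing E] [Algebra F E] (q : Fin 1)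
    (z : Fin (N * N) → E) : (mfc M i₀ h).pv q z = fun j => algebraMap F E (cw M i₀ j) := by
  funext j
  exact aeval_C _ _

theorem mfc_ok [CharZero F] (h : Vs f f') (hA : A.Ok) (hM : M.Ok) (h0 : cw M i₀ ≠ 0) :
    (mfc M i₀ h).Ok where
  ne E _ _ P z hz := by
    refine ⟨0, ?_⟩
    rw [mfc_pv]
    intro h1
    apply h0
    funext j
    exact (map_eq_zero _).1 (congrFun h1 j)
  co E _ _ P z q hz hq := by
    rw [mfc_pv]
    exact const_co h.hom hA hM h0 _

theorem mfc_alb [CharZero F] (h : Vs f f') (hp : (Ideal.span (Set.range f)).IsPrime)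
    (hA : A.Ok) (hM : M.Ok) (h0 : cw M i₀ ≠ 0) {E : Type} [Field E] [Algebra F E]
    (h1 : Vs (fun i => map (algebraMap F E) (f i)) fun i => map (algebraMap F E) (f' i))
    (hb : M.Alb E) : (mfc M i₀ h).Alb E := by
  intro ℓ hℓ
  refine ⟨0, ?_, fun z t ht q i' hq => ?_⟩
  · exact Finset.sum_eq_zero fun j _ => zero_mul _
  · obtain ⟨l, hl⟩ := h1.exists_ne (eval_of ht.1.2) ht.1.1
    have h2 : Tg (fun i => map (algebraMap F E) (f i)) (row l z) (row l t) :=
      ⟨h1.zp_row ht.1 hl, h1.row_mem ht.1.2 ht.2 l⟩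
    have h3 := frm_zero h.hom hp hA hM h0 hb (h1.frm hℓ) h2
    simp only [h1.frm_row hℓ ht hl] at h3
    rw [h3, mul_zero]
    exact (Finset.sum_eq_zero fun j _ => zero_mul _).symm

end img

end GX.Ve
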