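import Pool.Agent.Lib.MP_f80667_ag.Rsm.Kd
import Pool.Agent.Lib.MP_f80667_ag.Ve.J
import Pool.Agent.Lib.MP_f80667_ag.Ve.M

/-!
The cycles of degree `0` with sum `0` which are supported at points with smooth reduction, for models with generically reduced special fibre.
-/

open ZC BE PE CV IntermediateField IsDedekindDomain NumberField

namespace GX

namespace Ve

section tr

variable {F Ω : Type} [Field F] [Field Ω] [Algebra F Ω] {V : ValuationSubring Ω}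
  {N N' k k' k₂ d : ℕ} {ι ι' α : Type} {f : ι → MvPolynomial (Fin N) F}
  {f' : ι' → MvPolynomial (Fin (N * N)) F} {A : Gv F N' k' α} {M : Mf f A k}
  {M' : Mf f' A k₂} {K : Type} [Field K] [Algebra F K] [Algebra K Ω] [IsScalarTower F K Ω]

theorem sum_mo (h : Vs f f') (hφ : ∀ P : (Xf f).pt Ω, M'.φ Ω (h.mo.f Ω P) = M.φ Ω P)
    (z : (Xf f).pt Ω →₀ ℤ) : M'.S Ω (Finsupp.mapDomain (h.mo.f Ω) z) = M.S Ω z := by
  let _ := A.G.grp Ω
  change A.G.sum Ω (Finsupp.mapDomain (M'.φ Ω) (Finsupp.mapDomain (h.mo.f Ω) z)) =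
    A.G.sum Ω (Finsupp.mapDomain (M.φ Ω) z)
  rw [← Finsupp.mapDomain_comp]
  have h1 : M'.φ Ω ∘ h.mo.f Ω = M.φ Ω := funext hφ
  rw [h1]

theorem tzc_mo (h : Vs f f') (hφ : ∀ P : (Xf f).pt Ω, M'.φ Ω (h.mo.f Ω P) = M.φ Ω P)
    {z : (Xf f).pt Ω →₀ ℤ} :
    Finsupp.mapDomain (h.mo.f Ω) z ∈ Tzc M' K Ω ↔ z ∈ Tzc M K Ω := by
  change (_ ∧ _ ∧ _) ↔ (_ ∧ _ ∧ _)
  rw [h.cyc, Mo.deg, sum_mo h hφ]

theorem wzc_mo (h : Vs f f') (hφ : ∀ P : (Xf f).pt Ω, M'.φ Ω (h.mo.f Ω P) = M.φ Ω P)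
    {a : Ω} {z : (Xf f).pt Ω →₀ ℤ} :
    Finsupp.mapDomain (h.mo.f Ω) z ∈ Wzc V M' K a ↔ z ∈ Wzc V M K a := by
  change (_ ∧ _ ∧ _) ↔ (_ ∧ _ ∧ _)
  rw [h.cyc, h.zra, sum_mo h hφ]

theorem md_sub {α β : Type} (g : α → β) (z w : α →₀ ℤ) :
    Finsupp.mapDomain g (z - w) = Finsupp.mapDomain g z - Finsupp.mapDomain g w :=
  (Finsupp.mapDomain.addMonoidHom (M := ℤ) g).map_sub z w

theorem md_nsmul {α β : Type} (g : α → β) (n : ℕ) (z : α →₀ ℤ) :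
    Finsupp.mapDomain g (n • z) = n • Finsupp.mapDomain g z :=
  (Finsupp.mapDomain.addMonoidHom (M := ℤ) g).map_nsmul n z

theorem exists_md (h : Vs f f') (z' : (Xf f').pt Ω →₀ ℤ) :
    ∃ z, z' = Finsupp.mapDomain (h.mo.f Ω) z := ⟨_, (h.mo_im z').symm⟩

theorem dvw_mo (h : Vs f f') (hφ : ∀ P : (Xf f).pt Ω, M'.φ Ω (h.mo.f Ω P) = M.φ Ω P)
    {a : Ω} (hd : Dvw V M' K a) : Dvw V M K a := by
  intro b hb hc m hm z hz
  obtain ⟨z', h1, h2⟩ := hd b hb hc m hm _ ((wzc_mo h hφ).2 hz)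
  obtain ⟨w, rfl⟩ := exists_md h z'
  refine ⟨w, (wzc_mo h hφ).1 h1, ?_⟩
  rw [← md_nsmul, ← md_sub, h.ratEq] at h2
  exact h2

theorem tgZ_mo (h : Vs f f') (hφ : ∀ P : (Xf f).pt Ω, M'.φ Ω (h.mo.f Ω P) = M.φ Ω P)
    {a : Ω} {p : ℕ} {sm : (Xf f).pt Ω → Prop} {sm' : (Xf f').pt Ω → Prop}
    (hs : ∀ P, sm P → sm' (h.mo.f Ω P)) (hd : TgZ V K sm' M' a p) : TgZ V K sm M a p := by
  classical
  obtain ⟨E, hE, hE'⟩ := hd
  refine ⟨E.image (Finsupp.mapDomain (h.im.f Ω)), fun e he => ?_, fun z hz hsz h0 => ?_⟩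
  · obtain ⟨e', he', rfl⟩ := Finset.mem_image.1 he
    obtain ⟨h1, h2, n, h3⟩ := hE e' he'
    obtain ⟨w, rfl⟩ := exists_md h e'
    rw [h.im_mo]
    rw [← md_nsmul, h.ratEq] at h3
    exact ⟨(tzc_mo h hφ).1 h1, h.zrd.1 h2, n, h3⟩
  · have hsu : ∀ P ∈ (Finsupp.mapDomain (h.mo.f Ω) z).support, sm' P := by
      intro P hP
      obtain ⟨Q, hQ, rfl⟩ := Finset.mem_image.1 (Finsupp.mapDomain_support hP)
      exact hs Q (hsz Q hQ)
    obtain ⟨e, he, u, hu, h1⟩ := hE' _ ((tzc_mo h hφ).2 hz) hsu (h.zrd.2 h0)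
    obtain ⟨w, rfl⟩ := exists_md h e
    obtain ⟨y, rfl⟩ := exists_md h u
    refine ⟨w, Finset.mem_image.2 ⟨_, he, h.im_mo w⟩, y, (wzc_mo h hφ).1 hu, ?_⟩
    rw [← md_sub, ← md_sub, h.ratEq] at h1
    exact h1

theorem tgD_mo (h : Vs f f') (hφ : ∀ P : (Xf f).pt Ω, M'.φ Ω (h.mo.f Ω P) = M.φ Ω P)
    {a : Ω} {D : ℕ} {sm : (Xf f).pt Ω → Prop} {sm' : (Xf f').pt Ω → Prop}
    (hs : ∀ P, sm P → sm' (h.mo.f Ω P)) (hd : TgD V K sm' M' a D) : TgD V K sm M a D := by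
  classical
  obtain ⟨E, hE, hE'⟩ := hd
  refine ⟨E.image (Finsupp.mapDomain (h.im.f Ω)), fun e he => ?_, fun z hz hsz h0 => ?_⟩
  · obtain ⟨e', he', rfl⟩ := Finset.mem_image.1 he
    obtain ⟨h1, n, h2, h3⟩ := hE e' he'
    obtain ⟨w, rfl⟩ := exists_md h e'
    rw [h.im_mo]
    rw [← md_nsmul, h.ratEq] at h3
    exact ⟨(tzc_mo h hφ).1 h1, n, h2, h3⟩
  · have hsu : ∀ P ∈ (Finsupp.mapDomain (h.mo.f Ω) z).support, sm' P := by
      intro P hP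
      obtain ⟨Q, hQ, rfl⟩ := Finset.mem_image.1 (Finsupp.mapDomain_support hP)
      exact hs Q (hsz Q hQ)
    obtain ⟨e, he, u, hu, h1⟩ := hE' _ ((tzc_mo h hφ).2 hz) hsu (h.zrb h0)
    obtain ⟨w, rfl⟩ := exists_md h e
    obtain ⟨y, rfl⟩ := exists_md h u
    refine ⟨w, Finset.mem_image.2 ⟨_, he, h.im_mo w⟩, y, (wzc_mo h hφ).1 hu, ?_⟩
    rw [← md_sub, ← md_sub, h.ratEq] at h1
    exact h1

/-- **The transfer.** -/
theorem ssd_mo {f₀ : ι → MvPolynomial (Fin N) (Ovf V F)} (hf : ∀ i, ∃ e, (f i).IsHomogeneous e)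
    (h : ∀ i, MvPolynomial.map (Ovf V F).subtype (f₀ i) = f i) {M' : Mf (fv V f₀) A k₂}
    (hφ : ∀ P : (Xf f).pt Ω, M'.φ Ω ((vs_fv hf h).mo.f Ω P) = M.φ Ω P)
    (hs : Ssd V M' K d) : Ssd V M K d := by
  obtain ⟨a₀, h0, h1⟩ := hs
  refine ⟨a₀, h0, fun a ha hc => ?_⟩
  obtain ⟨h2, h3, h4⟩ := h1 a ha hc
  exact ⟨dvw_mo _ hφ h2, fun p hp hpn => tgZ_mo _ hφ (fun P hP => smo_mo hf h hP) (h3 p hp hpn),
    fun D => tgD_mo _ hφ (fun P hP => smo_mo hf h hP) (h4 D)⟩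

end tr

end Ve

open Ve in
/-- **The points with smooth reduction, for models with generically reduced special fibre.** Proof: `ssd_glob` for the image of the 2-uple embedding. -/
theorem ssd_ged {F : Type} [Field F] [NumberField F] {N N' k k' d : ℕ} {ι ι' : Type}
    {f : ι → MvPolynomial (Fin N) F} {A : Gv F N' k' ι'} {M : Mf f A k} (hf : Nsg f d)
    (hi : (Ideal.span (Set.range fun i =>
      MvPolynomial.map (algebraMap F (AlgebraicClosure F)) (f i))).radical.IsPrime)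
    (hA : A.Ok) (hM : M.Ok) (v : HeightOneSpectrum (𝓞 F)) (hb : M.Alb (AlgebraicClosure F))
    {V : ValuationSubring (AlgebraicClosure (FK F v))}
    (hV : V.comap (algebraMap (FK F v) _) = CV.Iv v) (h : Gem V f d) :
    Ssd V M (FK F v) d := by
  obtain ⟨f₀, h1, h2, h3⟩ := h.red
  have hv := vs_fv h.hom h1
  have hv' := vs_fv' h.hom h1 (AlgebraicClosure F)
  have hN : Nsg (fv V f₀) d := hv.nsg hv' hf
  have hI := hv'.rad hi
  have hG : Gsm V (fv V f₀) d := gsm_fv h.hom h1 h2 h3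
  by_cases h0 : ∀ i j, MvPolynomial.constantCoeff (M.Φ i j) = 0
  · refine ssd_mo h.hom h1 (M' := mfv hv M) (fun P => ?_)
      (ssd_glob hN hI hA (mfv_ok hv hM h0) v (mfv_alb hv h0 hv' hb) hV hG)
    exact congrArg (M.φ _) ((hv.ve _).symm_apply_apply P)
  · push Not at h0
    obtain ⟨i₀, j, hj⟩ := h0
    have hc : cw M i₀ ≠ 0 := fun hc => hj (congrFun hc j)
    refine ssd_mo h.hom h1 (M' := mfc M i₀ hv) (fun P => ?_)
      (ssd_glob hN hI hA (mfc_ok hv hA hM hc) v (mfc_alb hv hf.prime hA hM hc hv' hb) hV hG)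
    exact congrArg (M.φ _) ((hv.ve _).symm_apply_apply P)

end GX
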