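import Pool.Agent.Lib.MP_f80667_ag.Ct.Fun
import Pool.Agent.Lib.MP_f80667_ag.Ng.Ab
import Pool.Agent.Lib.MP_f80667_ag.Ve.F

/-! The dimension is at most the dimension of the tangent space at one point of every component. -/

open MvPolynomial

namespace GX.Ve

section der

variable {κ E : Type} [Field κ] [Field E] [Algebra κ E] {n d : ℕ} {ι : Type}
  {f : ι → MvPolynomial (Fin n) κ} {ξ : Fin n → E}

/-- The chain rule. Proof: induction. -/
theorem der_aeval (D : Derivation κ E E) (ξ : Fin n → E) (p : MvPolynomial (Fin n) κ) :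
    D (aeval ξ p) = ∑ j, aeval ξ (pderiv j p) * D (ξ j) := by
  classical
  induction p using MvPolynomial.induction_on with
  | C a =>
    rw [← algebraMap_eq, AlgHom.commutes, D.map_algebraMap]
    refine (Finset.sum_eq_zero fun j _ => ?_).symm
    rw [algebraMap_eq, pderiv_C, map_zero, zero_mul]
  | add p q hp hq =>
    rw [map_add, map_add, hp, hq, ← Finset.sum_add_distrib]
    refine Finset.sum_congr rfl fun s _ => ?_
    rw [map_add, map_add, add_mul]
  | mul_X p v hp =>
    rw [map_mul, aeval_X, D.leibniz, hp, smul_eq_mul, smul_eq_mul]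
    have h1 : ∀ s, aeval ξ (pderiv s (p * X v)) * D (ξ s) =
        ξ v * (aeval ξ (pderiv s p) * D (ξ s)) +
          aeval ξ p * (if s = v then D (ξ s) else 0) := by
      intro s
      rw [Derivation.leibniz, smul_eq_mul, smul_eq_mul, map_add, map_mul, map_mul, aeval_X,
        pderiv_X, Pi.single_apply]
      by_cases hv : v = s
      · rw [if_pos hv, if_pos hv.symm, map_one]
        ring
      · rw [if_neg hv, if_neg fun h => hv h.symm, map_zero]
        ring
    rw [Finset.sum_congr rfl fun s _ => h1 s, Finset.sum_add_distrib, ← Finset.mul_sum,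
      ← Finset.mul_sum]
    simp
    ring

/-- The field is algebraic over the field generated by the linear forms. Proof: every derivation which is `0` on the linear forms gives a tangent
vector on which the forms vanish. -/
theorem alg_of_ndg (hgen : IntermediateField.adjoin κ (Set.range ξ) = ⊤)
    (hz : ∀ i, aeval ξ (f i) = 0) {U : Fin (d + 1) → Fin n → E} (hU0 : ∀ r j, U r j ∈ (⊥ : IntermediateField κ E))
    (hU : Ndg (fun i => map (algebraMap κ E) (f i)) U ξ) :
    Algebra.IsAlgebraic (IntermediateField.adjoin κ (Set.range fun r => ∑ j, U r j * ξ j)) E := by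
  obtain ⟨K, hK⟩ : ∃ K, K = IntermediateField.adjoin κ (Set.range fun r => ∑ j, U r j * ξ j) :=
    ⟨_, rfl⟩
  rw [← hK]
  have hfg : (⊤ : IntermediateField κ E).FG := by
    classical
    refine ⟨Finset.univ.image ξ, ?_⟩
    rw [← hgen]
    simp
  have e1 : Algebra.EssFiniteType κ E := IntermediateField.fg_top_iff.1 hfg
  have e2 : Algebra.EssFiniteType K E := Algebra.EssFiniteType.of_comp κ K E
  have hD : ∀ D : Derivation κ E E, (∀ r, D (∑ j, U r j * ξ j) = 0) → ∀ x, D x = 0 := by
    intro D hD
    refine Ct.der_zero D hgen ?_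
    have h1 : (fun j => D (ξ j)) = 0 := by
      refine hU _ ?_ fun r => ?_
      · intro i
        have h2 := der_aeval D ξ (f i)
        rw [hz i, map_zero] at h2
        rw [h2]
        refine Finset.sum_congr rfl fun j _ => ?_
        rw [pderiv_map, eval_map, aeval_def]
      · rw [← hD r, map_sum]
        refine Finset.sum_congr rfl fun j _ => ?_
        obtain ⟨c, hc⟩ := IntermediateField.mem_bot.1 (hU0 r j)
        rw [D.leibniz, ← hc, D.map_algebraMap, smul_zero, add_zero, smul_eq_mul]
    rintro _ ⟨j, rfl⟩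
    exact congrFun h1 j
  have hDz : ∀ x : E, KaehlerDifferential.D K E x = 0 := by
    intro x
    rw [← Module.forall_dual_apply_eq_zero_iff E]
    intro φ
    have h1 := hD ((φ.compDer (KaehlerDifferential.D K E)).restrictScalars κ) (fun r => by
      have h2 : (∑ j, U r j * ξ j) = algebraMap K E ⟨∑ j, U r j * ξ j, by
        rw [hK]
        exact IntermediateField.subset_adjoin _ _ ⟨r, rfl⟩⟩ := rfl
      rw [h2]
      exact Derivation.map_algebraMap (φ.compDer (KaehlerDifferential.D K E)) _) x
    simpa using h1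
  have hsub : Subsingleton (KaehlerDifferential K E) := by
    rw [← Submodule.subsingleton_iff E, ← subsingleton_iff_bot_eq_top]
    rw [← KaehlerDifferential.span_range_derivation K E]
    symm
    rw [Submodule.span_eq_bot]
    rintro _ ⟨x, rfl⟩
    exact hDz x
  have e3 : Algebra.FormallyUnramified K E := ⟨hsub⟩
  have e4 : Algebra.IsSeparable K E := Algebra.FormallyUnramified.isSeparable K E
  infer_instance

theorem trdeg_of_ndg (hgen : IntermediateField.adjoin κ (Set.range ξ) = ⊤)
    (hz : ∀ i, aeval ξ (f i) = 0) {U : Fin (d + 1) → Fin n → E}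
    (hU0 : ∀ r j, U r j ∈ (⊥ : IntermediateField κ E))
    (hU : Ndg (fun i => map (algebraMap κ E) (f i)) U ξ) :
    Algebra.trdeg κ E ≤ (d + 1 : ℕ) := by
  have h1 := alg_of_ndg hgen hz hU0 hU
  have h2 : Algebra.IsAlgebraic (Algebra.adjoin κ (Set.range fun r => ∑ j, U r j * ξ j)) E := by
    refine ⟨fun x => ?_⟩
    exact IntermediateField.isAlgebraic_adjoin_iff.1 (h1.isAlgebraic x)
  refine (Algebra.IsAlgebraic.trdeg_le_cardinalMk κ
    (Set.range fun r => ∑ j, U r j * ξ j)).trans ?_
  refine Cardinal.mk_range_le.trans ?_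
  rw [Cardinal.mk_fin]

end der

/-- **The dimension.** -/
theorem trdeg_of_gen {κ : Type} [Field κ] {n d : ℕ} {ι : Type}
    {f : ι → MvPolynomial (Fin n) κ}
    (hg : ∀ P ∈ (Ideal.span (Set.range f)).minimalPrimes,
      ∃ x, (∀ g ∈ P, eval x g = 0) ∧ Module.finrank κ (tgs f x) ≤ d + 1) :
    Algebra.trdeg κ (MvPolynomial (Fin n) κ ⧸ Ideal.span (Set.range f)) ≤ (d + 1 : ℕ) := by
  classical
  refine trd_le fun s z hz => ?_
  let I := Ideal.span (Set.range f)
  -- a minimal prime ideal
  have hdis : Disjoint ((⊥ : Ideal (MvPolynomial (Fin n) κ ⧸ I)) : Set (MvPolynomial (Fin n) κ ⧸ I))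
      ((nonZeroDivisors (MvPolynomial (Fin s) κ)).map (aeval z : _ →ₐ[κ] _)) := by
    rw [Set.disjoint_left]
    rintro _ h1 ⟨p, hp, rfl⟩
    have h2 : aeval z p = 0 := h1
    have h3 : p = 0 := hz (h2.trans (map_zero _).symm)
    exact nonZeroDivisors.ne_zero hp h3
  obtain ⟨Q, hQ, -, hQd⟩ := Ideal.exists_le_prime_disjoint _ _ hdis
  have hQ' : (Q.comap (Ideal.Quotient.mk I)).IsPrime := hQ.comap _
  have hIQ : I ≤ Q.comap (Ideal.Quotient.mk I) := by
    intro g hg
    rw [Ideal.mem_comap, Ideal.Quotient.eq_zero_iff_mem.2 hg]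
    exact zero_mem _
  obtain ⟨P, hP, hPQ⟩ := Ideal.exists_minimalPrimes_le hIQ
  have hpr : P.IsPrime := hP.1.1
  obtain ⟨x, hx, hfr⟩ := hg P hP
  let E := FractionRing (MvPolynomial (Fin n) κ ⧸ P)
  have hinj : Function.Injective (algebraMap (MvPolynomial (Fin n) κ ⧸ P) E) :=
    IsFractionRing.injective _ _
  let ξ : Fin n → E := fun l => algebraMap _ E (Ideal.Quotient.mk P (X l))
  have hξ : ∀ g : MvPolynomial (Fin n) κ, aeval ξ g = algebraMap _ E (Ideal.Quotient.mk P g) := by
    intro g
    have h1 : aeval ξ = (IsScalarTower.toAlgHom κ (MvPolynomial (Fin n) κ ⧸ P) E).comp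
        (Ideal.Quotient.mkₐ κ P) := by
      refine algHom_ext fun l => ?_
      rw [aeval_X]
      rfl
    rw [h1]
    rfl
  have hξ0 : ∀ g, aeval ξ g = 0 ↔ g ∈ P := by
    intro g
    rw [hξ, map_eq_zero_iff _ hinj, Ideal.Quotient.eq_zero_iff_mem]
  have hgen : IntermediateField.adjoin κ (Set.range ξ) = ⊤ := by
    rw [eq_top_iff]
    intro y _
    obtain ⟨a, b, hb, rfl⟩ := IsFractionRing.div_surjective (A := MvPolynomial (Fin n) κ ⧸ P) y
    have h1 : ∀ a : MvPolynomial (Fin n) κ ⧸ P,
        algebraMap _ E a ∈ IntermediateField.adjoin κ (Set.range ξ) := by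
      intro a
      obtain ⟨g, rfl⟩ := Ideal.Quotient.mk_surjective a
      rw [← hξ]
      have h2 : aeval ξ g ∈ (IntermediateField.adjoin κ (Set.range ξ)).toSubalgebra := by
        refine (Algebra.adjoin_le (S := (IntermediateField.adjoin κ (Set.range ξ)).toSubalgebra)
          (IntermediateField.subset_adjoin κ _)) ?_
        rw [Algebra.adjoin_range_eq_range_aeval]
        exact ⟨g, rfl⟩
      exact h2
    exact div_mem (h1 a) (h1 b)
  -- the tangent space at the generic point
  obtain ⟨U, hU⟩ := exists_U1 hfr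
  obtain ⟨e, he⟩ := ndg_rows hU
  let M : Matrix (Fin n) (Fin n) (MvPolynomial (Fin n) κ) := Matrix.of fun a j =>
    Sum.elim (fun i j => pderiv j (f i)) (fun r j => C (U r j)) (e a) j
  have hM : ∀ x : Fin n → κ, eval x M.det = (Matrix.of fun k => rwm f x U (e k)).det := by
    intro x
    rw [RingHom.map_det]
    congr 1
    ext a j
    change eval x (Sum.elim (fun i j => pderiv j (f i)) (fun r j => C (U r j)) (e a) j) =
      Sum.elim (fun i j => eval x (pderiv j (f i))) U (e a) j
    rcases e a with b | b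
    · rfl
    · exact eval_C _
  have hm1 : M.det ∉ P := by
    intro h
    apply he
    rw [← hM]
    exact hx _ h
  have hMξ : aeval ξ M.det = (Matrix.of fun k => rwm (fun i => map (algebraMap κ E) (f i)) ξ
      (fun r j => algebraMap κ E (U r j)) (e k)).det := by
    change (aeval ξ).toRingHom M.det = _
    rw [RingHom.map_det]
    congr 1
    ext a j
    change aeval ξ (Sum.elim (fun i j => pderiv j (f i)) (fun r j => C (U r j)) (e a) j) =
      Sum.elim (fun i j => eval ξ (pderiv j (map (algebraMap κ E) (f i))))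
        (fun r j => algebraMap κ E (U r j)) (e a) j
    rcases e a with b | b
    · change aeval ξ (pderiv j (f b)) = eval ξ (pderiv j (map (algebraMap κ E) (f b)))
      rw [pderiv_map, eval_map, aeval_def]
    · exact aeval_C _ _
  have hndg : Ndg (fun i => map (algebraMap κ E) (f i)) (fun r j => algebraMap κ E (U r j)) ξ := by
    refine ndg_of (e := e) ?_
    rw [← hMξ, Ne, hξ0]
    exact hm1
  have htr : Algebra.trdeg κ E ≤ (d + 1 : ℕ) := trdeg_of_ndg hgen
    (fun i => (hξ0 _).2 (hP.1.2 (Ideal.subset_span ⟨i, rfl⟩)))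
    (fun r j => IntermediateField.algebraMap_mem _ _) hndg
  -- the images of the `z i`
  choose y hy using fun i => Ideal.Quotient.mk_surjective (z i)
  refine le_trd htr (z := fun i => aeval ξ (y i)) ?_
  rw [algebraicIndependent_iff]
  intro p hp
  by_contra hp0
  have h1 : aeval (fun i => aeval ξ (y i)) p = aeval ξ (aeval y p) := by
    rw [← AlgHom.comp_apply, comp_aeval]
  rw [h1, hξ0] at hp
  have h2 := hPQ hp
  rw [Ideal.mem_comap] at h2
  have h3 : Ideal.Quotient.mk I (aeval y p) = aeval z p := by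
    have h4 : (fun i => Ideal.Quotient.mk I (y i)) = z := funext hy
    rw [← h4]
    change (Ideal.Quotient.mkₐ κ I) (aeval y p) = _
    rw [← AlgHom.comp_apply, comp_aeval]
    rfl
  rw [h3] at h2
  exact Set.disjoint_left.1 hQd h2 ⟨p, mem_nonZeroDivisors_of_ne_zero hp0, rfl⟩

end GX.Ve
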