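import Pool.Agent.Lib.MP_f80667_ag.Ve.N
import Pool.Agent.Lib.MP_f80667_ag.Ve.O
import Pool.Agent.Lib.MP_f80667_ag.Ve.Sta

/-!
The closure of a projective variety over the integers, and the theorem for the closure.
-/

open ZC BE PE CV IntermediateField IsDedekindDomain NumberField

namespace GX

namespace Ve

section val

variable {F Ω : Type} [Field F] [Field Ω] [Algebra F Ω] {V : ValuationSubring Ω} {N d : ℕ}
  {ι : Type} {f : ι → MvPolynomial (Fin N) F}

variable (V f) in
/-- The equations of the closure. -/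
def clo : Clo V f → MvPolynomial (Fin N) (Ovf V F) := fun g => g.1

variable (V f) in
/-- The equations of the closure, over the field. -/
noncomputable def clF : Clo V f → MvPolynomial (Fin N) F :=
  fun g => MvPolynomial.map (Ovf V F).subtype g.1

theorem fbr_clo : fbr V (clo V f) = spc V f := rfl

theorem clF_hom (g : Clo V f) : ∃ e, (clF V f g).IsHomogeneous e := by
  obtain ⟨m, hm⟩ := g.2.1
  exact ⟨m, hm.map _⟩

/-- Common denominators. -/
theorem exists_den (p : MvPolynomial (Fin N) F) : ∃ (r : Ovf V F)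
    (q : MvPolynomial (Fin N) (Ovf V F)), r ≠ 0 ∧
      MvPolynomial.map (Ovf V F).subtype q = MvPolynomial.C (r : F) * p := by
  induction p using MvPolynomial.induction_on' with
  | monomial a c =>
    rcases (Ovf V F).mem_or_inv_mem c with h | h
    · refine ⟨1, MvPolynomial.monomial a ⟨c, h⟩, one_ne_zero, ?_⟩
      rw [MvPolynomial.map_monomial]
      change MvPolynomial.monomial a c = MvPolynomial.C (1 : F) * MvPolynomial.monomial a c
      rw [map_one, one_mul]
    · by_cases hc : c = 0
      · refine ⟨1, 0, one_ne_zero, ?_⟩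
        rw [hc, map_zero, map_zero, mul_zero]
      · refine ⟨⟨c⁻¹, h⟩, MvPolynomial.monomial a 1, fun h0 => ?_, ?_⟩
        · exact inv_ne_zero hc (congrArg Subtype.val h0)
        · rw [MvPolynomial.map_monomial, map_one, MvPolynomial.C_mul_monomial]
          congr 1
          exact (inv_mul_cancel₀ hc).symm
  | add p q hp hq =>
    obtain ⟨r, g, hr, h1⟩ := hp
    obtain ⟨r', g', hr', h2⟩ := hq
    refine ⟨r * r', MvPolynomial.C r' * g + MvPolynomial.C r * g', mul_ne_zero hr hr', ?_⟩
    rw [map_add, map_mul, map_mul, MvPolynomial.map_C, MvPolynomial.map_C, h1, h2]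
    change MvPolynomial.C (r' : F) * _ + MvPolynomial.C (r : F) * _ =
      MvPolynomial.C ((r : F) * (r' : F)) * _
    rw [MvPolynomial.C_mul]
    ring

/-- The equations of the closure generate the ideal. -/
theorem span_clF (hf : ∀ i, ∃ e, (f i).IsHomogeneous e) :
    Ideal.span (Set.range (clF V f)) = Ideal.span (Set.range f) := by
  refine le_antisymm (Ideal.span_le.2 ?_) (Ideal.span_le.2 ?_)
  · rintro _ ⟨g, rfl⟩
    exact g.2.2
  · rintro _ ⟨i, rfl⟩
    obtain ⟨r, q, hr, hq⟩ := exists_den (V := V) (f i)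
    obtain ⟨e, he⟩ := hf i
    have hr' : (r : F) ≠ 0 := fun h => hr (Subtype.ext h)
    have h1 : MvPolynomial.map (Ovf V F).subtype q ∈ Ideal.span (Set.range f) := by
      rw [hq]
      exact Ideal.mul_mem_left _ _ (Ideal.subset_span ⟨i, rfl⟩)
    have h2 : q.IsHomogeneous e := by
      intro a ha
      refine he ?_
      intro h0
      apply ha
      have h3 := congrArg (MvPolynomial.coeff a) hq
      rw [MvPolynomial.coeff_map, MvPolynomial.coeff_C_mul, h0, mul_zero] at h3
      exact Subtype.val_injective h3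
    have h3 : f i = MvPolynomial.C (r : F)⁻¹ * clF V f ⟨q, ⟨e, h2⟩, h1⟩ := by
      change f i = MvPolynomial.C (r : F)⁻¹ * MvPolynomial.map (Ovf V F).subtype q
      rw [hq, ← mul_assoc, ← MvPolynomial.C_mul, inv_mul_cancel₀ hr', MvPolynomial.C_1, one_mul]
    rw [h3]
    exact Ideal.mul_mem_left _ _ (Ideal.subset_span ⟨_, rfl⟩)

attribute [local instance] MvPolynomial.gradedAlgebra in
theorem comp_mem (hf : ∀ i, ∃ e, (f i).IsHomogeneous e) {g : MvPolynomial (Fin N) F}
    (hg : g ∈ Ideal.span (Set.range f)) (m : ℕ) :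
    MvPolynomial.homogeneousComponent m g ∈ Ideal.span (Set.range f) := by
  have hJ : (Ideal.span (Set.range f)).IsHomogeneous
      (MvPolynomial.homogeneousSubmodule (Fin N) F) := by
    refine Ideal.homogeneous_span _ _ ?_
    rintro _ ⟨i, rfl⟩
    exact hf i
  have h3 := hJ m hg
  have h5 : (DirectSum.decompose (MvPolynomial.homogeneousSubmodule (Fin N) F) g m :
      MvPolynomial (Fin N) F) = MvPolynomial.homogeneousComponent m g :=
    MvPolynomial.decomposition.decompose'_apply g m
  rwa [h5] at h3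

/-- The ideal of the closure. -/
theorem mem_clo (hf : ∀ i, ∃ e, (f i).IsHomogeneous e) {g : MvPolynomial (Fin N) (Ovf V F)} :
    g ∈ Ideal.span (Set.range (clo V f)) ↔
      MvPolynomial.map (Ovf V F).subtype g ∈ Ideal.span (Set.range f) := by
  constructor
  · intro h
    have h1 : Ideal.span (Set.range (clo V f)) ≤
        (Ideal.span (Set.range f)).comap (MvPolynomial.map (Ovf V F).subtype) := by
      rw [Ideal.span_le]
      rintro _ ⟨q, rfl⟩
      exact q.2.2
    exact h1 h
  · intro h
    rw [← MvPolynomial.sum_homogeneousComponent g]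
    refine sum_mem fun m _ => Ideal.subset_span
      ⟨⟨_, ⟨m, MvPolynomial.homogeneousComponent_isHomogeneous m g⟩, ?_⟩, rfl⟩
    have h1 : MvPolynomial.map (Ovf V F).subtype (MvPolynomial.homogeneousComponent m g) =
        MvPolynomial.homogeneousComponent m (MvPolynomial.map (Ovf V F).subtype g) := by
      ext a
      rw [MvPolynomial.coeff_map, MvPolynomial.coeff_homogeneousComponent,
        MvPolynomial.coeff_homogeneousComponent, MvPolynomial.coeff_map]
      split_ifs
      · rfl
      · exact map_zero _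
    rw [h1]
    exact comp_mem hf h m

theorem clo_sat (hf : ∀ i, ∃ e, (f i).IsHomogeneous e) (r : Ovf V F)
    (g : MvPolynomial (Fin N) (Ovf V F)) (hr : r ≠ 0)
    (h : MvPolynomial.C r * g ∈ Ideal.span (Set.range (clo V f))) :
    g ∈ Ideal.span (Set.range (clo V f)) := by
  rw [mem_clo hf] at h ⊢
  rw [map_mul, MvPolynomial.map_C] at h
  have hr' : (r : F) ≠ 0 := fun h => hr (Subtype.ext h)
  have h1 := Ideal.mul_mem_left _ (MvPolynomial.C (r : F)⁻¹) h
  rw [← mul_assoc] at h1
  have h2 : MvPolynomial.C (r : F)⁻¹ * MvPolynomial.C ((Ovf V F).subtype r) =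
      (1 : MvPolynomial (Fin N) F) := by
    rw [← MvPolynomial.C_mul]
    change MvPolynomial.C ((r : F)⁻¹ * (r : F)) = 1
    rw [inv_mul_cancel₀ hr', MvPolynomial.C_1]
  rwa [h2, one_mul] at h1

/-- The image of the variety. -/
theorem vsc (hf : ∀ i, ∃ e, (f i).IsHomogeneous e) : Vs f (fv V (clo V f)) where
  hom := hf
  hom' := (vs_fv (V := V) clF_hom fun _ => rfl).hom'
  span g := by
    rw [← span_clF (V := V) hf]
    exact (vs_fv (V := V) (clF_hom (V := V) (f := f)) fun _ => rfl).span g

theorem vsc' (hf : ∀ i, ∃ e, (f i).IsHomogeneous e) (E : Type) [Field E] [Algebra F E] :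
    Vs (fun i => MvPolynomial.map (algebraMap F E) (f i)) fun q =>
      MvPolynomial.map (algebraMap F E) (fv V (clo V f) q) where
  hom i := (hf i).imp fun _ h => h.map _
  hom' := (vs_fv' (V := V) (clF_hom (V := V) (f := f)) (fun _ => rfl) E).hom'
  span g := by
    have h1 : Ideal.span (Set.range fun i => MvPolynomial.map (algebraMap F E) (f i)) =
        Ideal.span (Set.range fun i => MvPolynomial.map (algebraMap F E) (clF V f i)) := by
      have h2 := congrArg (Ideal.map (MvPolynomial.map (algebraMap F E)))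
        (span_clF (V := V) hf)
      rw [Ideal.map_span, Ideal.map_span, ← Set.range_comp, ← Set.range_comp] at h2
      exact h2.symm
    rw [h1]
    exact (vs_fv' (V := V) (clF_hom (V := V) (f := f)) (fun _ => rfl) E).span g

theorem gsm_clo [IsAlgClosed Ω] (hf : ∀ i, ∃ e, (f i).IsHomogeneous e) (h : Gng V f d) :
    Gsm V (fv V (clo V f)) d := by
  refine gsm_fv (f := clF V f) clF_hom (fun _ => rfl) (clo_sat hf) ⟨fun g => ?_, ?_, h⟩
  · obtain ⟨m, hm⟩ := g.2.1
    exact ⟨m, hm.map _⟩
  · exact trdeg_of_gen fun P hP => (h P hP).imp fun _ h => h.2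

/-- **Points with smooth reduction.** -/
theorem sms_mo (hf : ∀ i, ∃ e, (f i).IsHomogeneous e) {P : (Xf f).pt Ω} (hP : Sms V f d P) :
    Smo V (fv V (clo V f)) d ((vsc hf).mo.f Ω P) := by
  obtain ⟨x, hx, ⟨l, hl⟩, hs⟩ := hP
  refine ⟨vf (clo V f), fun _ => rfl, vx x, (vsc hf).co_mo hx, ⟨nb l l, ?_⟩, ?_⟩
  · rw [vx_nb]
    exact hl.mul hl
  · have hk : Vs (spc V f) (fbr V (vf (clo V f))) := vs_fbr (f := clF V f) clF_hom fun _ => rfl
    have hx0 : ∀ g : Clo V f, MvPolynomial.aeval (fun j => (x j : Ω)) (clF V f g) = 0 := by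
      intro g
      have h1 : Ideal.span (Set.range f) ≤
          RingHom.ker (MvPolynomial.aeval (fun j => (x j : Ω)) : _ →ₐ[F] Ω) := by
        rw [Ideal.span_le]
        rintro _ ⟨i, rfl⟩
        exact co_zero hx i
      exact h1 g.2.2
    have hz : ∀ i, MvPolynomial.eval (fun j => IsLocalRing.residue V (x j)) (spc V f i) = 0 :=
      fbr_zero (f := clF V f) (fun _ => rfl) hx0
    have e1 : (fun q => IsLocalRing.residue V (vx x q)) =
        vx fun j => IsLocalRing.residue V (x j) := funext fun q => map_mul _ _ _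
    unfold Sky
    rw [e1]
    have hz' : ∀ i, MvPolynomial.eval (vx fun j => IsLocalRing.residue V (x j))
        (fbr V (vf (clo V f)) i) = 0 := by
      intro i
      have h2 := hk.aeval_vx (x := fun j => IsLocalRing.residue V (x j)) (eval_of hz) i
      rwa [MvPolynomial.aeval_def, Algebra.algebraMap_self, MvPolynomial.eval₂_id] at h2
    have hl' : IsLocalRing.residue V (x l) ≠ 0 := (hl.map (IsLocalRing.residue V)).ne_zero
    have hll : vx (fun j => IsLocalRing.residue V (x j)) (nb l l) ≠ 0 := by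
      rw [vx_nb]
      exact mul_ne_zero hl' hl'
    refine (hk.finrank_le hz' hll).trans ?_
    rw [row_vx, tgs_smul hk.hom _ hl']
    exact hs

/-- **The transfer.** -/
theorem sss_mo {N' k k' k₂ : ℕ} {α : Type} {A : Gv F N' k' α} {M : Mf f A k} {K : Type}
    [Field K] [Algebra F K] [Algebra K Ω] [IsScalarTower F K Ω]
    (hf : ∀ i, ∃ e, (f i).IsHomogeneous e) {M' : Mf (fv V (clo V f)) A k₂}
    (hφ : ∀ P : (Xf f).pt Ω, M'.φ Ω ((vsc hf).mo.f Ω P) = M.φ Ω P)
    (hs : Ssd V M' K d) : Sss V M K d := by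
  obtain ⟨a₀, h0, h1⟩ := hs
  refine ⟨a₀, h0, fun a ha hc => ?_⟩
  obtain ⟨h2, h3, h4⟩ := h1 a ha hc
  exact ⟨dvw_mo _ hφ h2, fun p hp hpn => tgZ_mo _ hφ (fun P hP => sms_mo hf hP) (h3 p hp hpn),
    fun D => tgD_mo _ hφ (fun P hP => sms_mo hf hP) (h4 D)⟩

end val

end Ve

end GX
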