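import Pool.Agent.Lib.MP_f80667_ag.Ve.P

/-! The theorem for the closure over the integers. -/

open ZC BE PE CV IntermediateField IsDedekindDomain NumberField

namespace GX

open Ve in
/-- **The points with smooth reduction, for the closure over the integers.** Proof: `ssd_glob` for the image of the 2-uple embedding. -/
theorem sss_glob {F : Type} [Field F] [NumberField F] {N N' k k' d : ℕ} {ι ι' : Type}
    {f : ι → MvPolynomial (Fin N) F} {A : Gv F N' k' ι'} {M : Mf f A k} (hf : Nsg f d)
    (hi : (Ideal.span (Set.range fun i =>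
      MvPolynomial.map (algebraMap F (AlgebraicClosure F)) (f i))).radical.IsPrime)
    (hA : A.Ok) (hM : M.Ok) (hb : M.Alb (AlgebraicClosure F)) (v : HeightOneSpectrum (𝓞 F))
    {V : ValuationSubring (AlgebraicClosure (FK F v))}
    (hV : V.comap (algebraMap (FK F v) _) = CV.Iv v) (h : Gng V f d) :
    Sss V M (FK F v) d := by
  have hv : Vs f (fv V (clo V f)) := vsc hf.hom
  have hv' : Vs (fun i => MvPolynomial.map (algebraMap F (AlgebraicClosure F)) (f i)) fun q =>
      MvPolynomial.map (algebraMap F (AlgebraicClosure F)) (fv V (clo V f) q) :=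
    vsc' hf.hom (AlgebraicClosure F)
  have hN : Nsg (fv V (clo V f)) d := hv.nsg hv' hf
  have hI := hv'.rad hi
  have hG : Gsm V (fv V (clo V f)) d := gsm_clo hf.hom h
  by_cases h0 : ∀ i j, MvPolynomial.constantCoeff (M.Φ i j) = 0
  · refine sss_mo hf.hom (M' := mfv hv M) (fun P => ?_)
      (ssd_glob hN hI hA (mfv_ok hv hM h0) v (mfv_alb hv h0 hv' hb) hV hG)
    exact congrArg (M.φ _) ((hv.ve _).symm_apply_apply P)
  · push Not at h0
    obtain ⟨i₀, j, hj⟩ := h0
    have hc : cw M i₀ ≠ 0 := fun hc => hj (congrFun hc j)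
    refine sss_mo hf.hom (M' := mfc M i₀ hv) (fun P => ?_)
      (ssd_glob hN hI hA (mfc_ok hv hA hM hc) v (mfc_alb hv hf.prime hA hM hc hv' hb) hV hG)
    exact congrArg (M.φ _) ((hv.ve _).symm_apply_apply P)

end GX
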