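import Pool.Agent.Lib.MP_f80667_ag.Sb.D
import Pool.Agent.Lib.MP_f80667_ag.Ve.L

/-! The differences of points in the radial direction. -/

open MvPolynomial CV ZC

namespace GX.Ve

/-- A polynomial with the zeros `s ≠ 0` is `0`. -/
theorem pol_zero {E : Type} [Field E] [Infinite E] {p : Polynomial E}
    (h : ∀ s, s ≠ 0 → p.eval s = 0) : p = 0 := by
  refine Polynomial.eq_zero_of_infinite_isRoot p ?_
  refine Set.Infinite.mono (s := {s | s ≠ 0}) (fun s hs => h s hs) ?_
  exact (Set.finite_singleton (0 : E)).infinite_compl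

variable {F : Type} [Field F] {N' k' : ℕ} {α : Type} {A : Gv F N' k' α}

/-- The vector `(T y, y)`. -/
noncomputable def ty {E : Type} [Field E] {n : ℕ} (y : Fin n → E) : Fin n ⊕ Fin n → Polynomial E :=
  Sum.elim (fun l => Polynomial.C (y l) * Polynomial.X) fun l => Polynomial.C (y l)

/-- The chain rule. Proof: induction. -/
theorem ty_der {E : Type} [Field E] [Algebra F E] {n : ℕ} (y : Fin n → E)
    (p : MvPolynomial (Fin n ⊕ Fin n) F) :
    (Polynomial.derivative (aeval (ty y) p)).eval 1 =
      ∑ s, aeval (Sum.elim y y) (pderiv (Sum.inl s) p) * y s := by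
  classical
  have he : ∀ p : MvPolynomial (Fin n ⊕ Fin n) F,
      (aeval (ty y) p).eval 1 = aeval (Sum.elim y y) p := by
    intro p
    have h1 : ((Polynomial.aeval (1 : E)).restrictScalars F).comp (aeval (ty y)) =
        (aeval (Sum.elim y y) : MvPolynomial (Fin n ⊕ Fin n) F →ₐ[F] E) := by
      refine algHom_ext fun v => ?_
      rcases v with l | l
      · simp [ty]
      · simp [ty]
    have h2 := DFunLike.congr_fun h1 p
    exact h2
  induction p using MvPolynomial.induction_on with
  | C a =>
    rw [← algebraMap_eq, AlgHom.commutes]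
    have h1 : algebraMap F (Polynomial E) a = Polynomial.C (algebraMap F E a) := rfl
    rw [h1, Polynomial.derivative_C, Polynomial.eval_zero]
    refine (Finset.sum_eq_zero fun s _ => ?_).symm
    rw [algebraMap_eq, pderiv_C, map_zero, zero_mul]
  | add p q hp hq =>
    rw [map_add, Polynomial.derivative_add, Polynomial.eval_add, hp, hq, ← Finset.sum_add_distrib]
    refine Finset.sum_congr rfl fun s _ => ?_
    rw [map_add, map_add, add_mul]
  | mul_X p v hp =>
    rw [map_mul, Polynomial.derivative_mul, Polynomial.eval_add, Polynomial.eval_mul,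
      Polynomial.eval_mul, hp, he, aeval_X]
    have h1 : ∀ s, aeval (Sum.elim y y) (pderiv (Sum.inl s) (p * X v)) * y s =
        aeval (Sum.elim y y) (pderiv (Sum.inl s) p) * y s * Sum.elim y y v +
          aeval (Sum.elim y y) p * (if Sum.inl s = v then y s else 0) := by
      intro s
      rw [Derivation.leibniz, smul_eq_mul, smul_eq_mul, map_add, map_mul, map_mul, aeval_X,
        pderiv_X, Pi.single_apply]
      by_cases hv : v = Sum.inl s
      · rw [if_pos hv, if_pos hv.symm, map_one]
        ring
      · rw [if_neg hv, if_neg fun h => hv h.symm, map_zero]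
        ring
    rw [Finset.sum_congr rfl fun s _ => h1 s, Finset.sum_add_distrib, ← Finset.sum_mul,
      ← Finset.mul_sum]
    rcases v with l | l
    · have e1 : ty y (Sum.inl l) = Polynomial.C (y l) * Polynomial.X := rfl
      have e2 : ∑ s, (if (Sum.inl s : Fin n ⊕ Fin n) = Sum.inl l then y s else 0) = y l := by
        simp
      rw [aeval_X, e1, e2, Polynomial.derivative_C_mul, Polynomial.derivative_X, mul_one,
        Polynomial.eval_C, he]
    · have e1 : ty y (Sum.inr l) = Polynomial.C (y l) := rfl
      have e2 : ∑ s, (if (Sum.inl s : Fin n ⊕ Fin n) = Sum.inr l then y s else 0) = 0 := by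
        simp
      rw [aeval_X, e1, e2, Polynomial.derivative_C, Polynomial.eval_zero, mul_zero, mul_zero]

/-- The difference of the point and itself. -/
theorem mv_self (hA : A.Ok) {E : Type} [Field E] [Algebra F E] {P : (Xf A.a).pt E}
    {y y' : Fin N' → E} (h : Co P y) (h' : Co P y') (i : Fin k') (j : Fin N') :
    A.mv i y y' j = A.mv i y y' A.j₀ * algebraMap F E (A.o j) := by
  by_cases h0 : A.mv i y y' = 0
  · rw [h0, Pi.zero_apply, Pi.zero_apply, zero_mul]
  · let _ := A.G.grp E
    have h1 := hA.sub E P P (A.G.grp E).zero y y' i h h' (zero_add (P : (Xf A.a).pt E)) h0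
    obtain ⟨c, -, h2⟩ := co_rel (hA.co_zero E) h1
    rw [h2 j, h2 A.j₀, hA.o1, map_one, mul_one]

/-- **The radial direction.** Proof: `m_i (s y, y)` is a multiple of `o` for all `s ≠ 0`; the derivative at `s = 1`. -/
theorem dm_rad (hA : A.Ok) {E : Type} [Field E] [Infinite E] [Algebra F E] {P : (Xf A.a).pt E}
    {y : Fin N' → E} (h : Co P y) (i : Fin k') (c : E) (j : Fin N') :
    A.dm i y (c • y) j = A.dm i y (c • y) A.j₀ * algebraMap F E (A.o j) := by
  have h1 : ∀ j, A.dm i y (c • y) j =
      c * ∑ s, aeval (Sum.elim y y) (pderiv (Sum.inl s) (A.m i j)) * y s := by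
    intro j
    rw [Gv.dm, Finset.mul_sum]
    refine Finset.sum_congr rfl fun s _ => ?_
    rw [Pi.smul_apply, smul_eq_mul]
    ring
  have h2 : aeval (ty y) (A.m i j) -
      aeval (ty y) (A.m i A.j₀) * Polynomial.C (algebraMap F E (A.o j)) = 0 := by
    refine pol_zero fun s hs => ?_
    have he : ∀ p : MvPolynomial (Fin N' ⊕ Fin N') F,
        (aeval (ty y) p).eval s = aeval (Sum.elim (fun l => s * y l) y) p := by
      intro p
      have h1 : ((Polynomial.aeval (s : E)).restrictScalars F).comp (aeval (ty y)) =
          (aeval (Sum.elim (fun l => s * y l) y) :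
            MvPolynomial (Fin N' ⊕ Fin N') F →ₐ[F] E) := by
        refine algHom_ext fun v => ?_
        rcases v with l | l
        · rw [AlgHom.comp_apply, aeval_X, aeval_X]
          change Polynomial.aeval s (Polynomial.C (y l) * Polynomial.X) = s * y l
          rw [map_mul, Polynomial.aeval_C, Polynomial.aeval_X, mul_comm]
          rfl
        · simp [ty]
      exact DFunLike.congr_fun h1 p
    rw [Polynomial.eval_sub, Polynomial.eval_mul, Polynomial.eval_C, he, he, sub_eq_zero]
    exact mv_self hA (co_smul hA.hm h hs) h i j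
  have h3 := congrArg (fun p => (Polynomial.derivative p).eval 1) h2
  simp only [Polynomial.derivative_sub, Polynomial.derivative_mul, Polynomial.derivative_C,
    mul_zero, add_zero, Polynomial.eval_sub, Polynomial.eval_mul, Polynomial.eval_C, map_zero,
    Polynomial.eval_zero, ty_der, sub_eq_zero] at h3
  rw [h1, h1, h3]
  ring

end GX.Ve
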